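import Pool.Agent.T9h36.NX.Defs

set_option autoImplicit false

/-!
# Exponential time with polynomial advice; languages random for nonuniform nondeterministic time
-/

namespace Pool.Agent.T9h36.NY

open Pool.Agent.NPC Pool.Agent.H660R2.NX Pool.Agent.T9h36.NX

/-- The class `EXP/poly`: an advice string `a n` of polynomial length for every length `n`. -/
def InEXPPoly (L : Set (List Bool)) : Prop :=
  ∃ (E : Set (List Bool)) (q : Polynomial ℕ) (a : ℕ → List Bool), InEXP E ∧
    (∀ n, (a n).length ≤ q.eval n) ∧ ∀ x : List Bool, x ∈ L ↔ bits (x, a x.length) ∈ E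

/-- The set of the inputs `x` of length `n` that are accepted with the advice string `s`: for some
string `u` of length at most `C (n + 1) ^ c` the triple `(x, u, s)` is in `B \ B'`. -/
def Acc (C c : ℕ) (B B' : Set (List Bool)) (n : ℕ) (s : List Bool) : Set (List Bool) :=
  {x | x.length = n ∧ ∃ u : List Bool, u.length ≤ C * (n + 1) ^ c ∧
    bits (x, u, s) ∈ B ∧ bits (x, u, s) ∉ B'}

/-- `L` behaves like a random language, at all large lengths `n`, with respect to all sets
`S = Acc C c B B' n s` with `B` and `B'` in `NTIME(2 ^ O(n ^ b))` and with an advice string `s` of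
length at most `C (n + 1) ^ c`: the numbers of the inputs of length `n` on which `L` and `S` agree
and on which they differ are both at most `2 ^ (n - 1) + 2 ^ (n / 2) (n + 1) ^ E / 2`; if `S` is
contained in `L`, it has at most `(n + 1) ^ E` elements; if `S` contains all members of `L` of
length `n`, then its complement has at most `(n + 1) ^ E` elements. -/
def RandomLike (b c : ℕ) (L : Set (List Bool)) : Prop :=
  ∃ E : ℕ, ∀ (C : ℕ) (B B' : Set (List Bool)), InNTE b B → InNTE b B' →
    ∀ᶠ n in Filter.atTop, ∀ s : List Bool, s.length ≤ C * (n + 1) ^ c →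
      2 * {x : List Bool | x.length = n ∧ (x ∈ Acc C c B B' n s ↔ x ∈ L)}.ncard ≤
        2 ^ n + 2 ^ (n / 2) * (n + 1) ^ E ∧
      2 * {x : List Bool | x.length = n ∧ ¬ (x ∈ Acc C c B B' n s ↔ x ∈ L)}.ncard ≤
        2 ^ n + 2 ^ (n / 2) * (n + 1) ^ E ∧
      (Acc C c B B' n s ⊆ L → (Acc C c B B' n s).ncard ≤ (n + 1) ^ E) ∧
      ({x : List Bool | x.length = n ∧ x ∈ L} ⊆ Acc C c B B' n s →
        {x : List Bool | x.length = n ∧ x ∉ Acc C c B B' n s}.ncard ≤ (n + 1) ^ E)

end Pool.Agent.T9h36.NY
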