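import Pool.Agent.T9h36.NY.Props

set_option autoImplicit false

/-!
# The dichotomy
-/

namespace Pool.Agent.T9h36.NY

open Pool.Agent.NPC Pool.Agent.H660R2.NX Pool.Agent.T9h36.NX Turing Filter

theorem sz_map_range_le (a : ℕ → List Bool) {c' d' : ℕ} (ha : ∀ n, (a n).length ≤ c' * (n + 1) ^ d')
    (Λ : ℕ) : ∀ k ≤ Λ + 1, sz ((List.range k).map a) ≤ k * (4 * (c' * (Λ + 1) ^ d') + 2) + 1 := by
  intro k
  induction k with
  | zero => intro _; simp
  | succ k ih =>
    intro hk
    have h1 := ih (by omega)
    have h2 := sz_append ((List.range k).map a) [a k]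
    have h3 := sz_listBool_le (a k)
    have h4 := ha k
    have h5 : c' * (k + 1) ^ d' ≤ c' * (Λ + 1) ^ d' :=
      Nat.mul_le_mul_left _ (Nat.pow_le_pow_left (by omega) _)
    rw [List.range_succ, List.map_append, List.map_cons, List.map_nil]
    have h6 : sz [a k] = sz (a k) + 1 + 1 := by
      rw [sz_list_cons]
      simp
    have h7 : (k + 1) * (4 * (c' * (Λ + 1) ^ d') + 2) =
      k * (4 * (c' * (Λ + 1) ^ d') + 2) + (4 * (c' * (Λ + 1) ^ d') + 2) := by ring
    omega

/-- If the universal set is in `EXP/poly`, then some language in `EXP` is random-like. -/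
theorem dich {b c : ℕ} (hb : 1 ≤ b) (hc : 1 ≤ c) (hK : InEXPPoly KSet) :
    ∃ L : Set (List Bool), InEXP L ∧ InNEXP L ∧ RandomLike b c L := by
  classical
  obtain ⟨E0, q, a, hE, hq, hKE⟩ := hK
  obtain ⟨V, p, hV, hE0⟩ := hE
  obtain ⟨c', d', hcd⟩ := poly_bound q
  have ha : ∀ n, (a n).length ≤ c' * (n + 1) ^ d' := fun n => (hq n).trans (hcd n)
  set Ex := c * b * (d' + 1) + 1 with hEx
  let P : Polynomial ℕ := (Polynomial.X + 1) ^ Ex
  have hPe : ∀ n : ℕ, P.eval n = (n + 1) ^ Ex := fun n => by simp [P]
  let R : Polynomial ℕ := Polynomial.X + P + p.comp P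
  have hRe : ∀ n : ℕ, R.eval n = n + P.eval n + p.eval (P.eval n) := fun n => by
    simp only [R, Polynomial.eval_add, Polynomial.eval_X, Polynomial.eval_comp]
  refine ⟨DiagE V p P R, inEXP_DiagE hV p P R, inNEXP_DiagE hV p P R, Ex + 1,
    fun C B B' hB hB' => ?_⟩
  obtain ⟨e, Ke, he⟩ := exists_ins hb hB
  obtain ⟨e', Ke', he'⟩ := exists_ins hb hB'
  -- the sizes
  let U : ℕ → ℕ := fun n => C * (n + 1) ^ c
  let Z : ℕ → ℕ := fun n => 4 * (n + 2 * U n) + 5
  let m : ℕ → ℕ := fun n => (Ke + Ke') * (Z n + 1) ^ b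
  let Λ : ℕ → ℕ := fun n => sz e + sz e' + 4 * Z n + 2 * m n + 4
  let A1 : ℕ → ℕ := fun n => c' * (Λ n + 1) ^ d'
  let G : ℕ → ℕ := fun n => 4 * (Λ n + A1 n) + 3
  let F : ℕ → ℕ := fun n => (sz e + sz e' + 4 * m n + 6 * U n + 20) +
    ((Λ n + 1) ^ 1 * (4 * A1 n + 2) + 1)
  have pU : PB c U := PB.const_mul C (PB.succ_pow_self c)
  have pZ : PB c Z := (PB.const_mul 4 ((PB.id hc).add (PB.const_mul 2 pU))).add (PB.const c 5)
  have pm : PB (c * b) m := PB.const_mul (Ke + Ke') (pZ.succ_pow b)
  have pΛ : PB (c * b) Λ := by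
    refine (((PB.const _ (sz e + sz e')).add (PB.const_mul 4 ?_)).add
      (PB.const_mul 2 pm)).add (PB.const _ 4)
    exact pZ.mono (Nat.le_mul_of_pos_right _ hb)
  have pA1 : PB (c * b * d') A1 := PB.const_mul c' (pΛ.succ_pow d')
  have hle1 : c * b ≤ c * b * (d' + 1) := Nat.le_mul_of_pos_right _ (by omega)
  have hle2 : c * b * d' ≤ c * b * (d' + 1) := Nat.mul_le_mul_left _ (by omega)
  have hle3 : c ≤ c * b * (d' + 1) := (Nat.le_mul_of_pos_right _ hb).trans hle1
  have pG : PB (c * b * (d' + 1)) G :=
    (PB.const_mul 4 ((pΛ.mono hle1).add (pA1.mono hle2))).add (PB.const _ 3)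
  have pF : PB (c * b * (d' + 1)) F := by
    refine ((((PB.const _ (sz e + sz e')).add (PB.const_mul 4 (pm.mono hle1))).add
      (PB.const_mul 6 (pU.mono hle3))).add (PB.const _ 20)).add (PB.add ?_ (PB.const _ 1))
    have := (pΛ.succ_pow 1).mul ((PB.const_mul 4 pA1).add (PB.const _ 2))
    refine this.mono (le_of_eq ?_)
    ring
  filter_upwards [pG.eventually, pF.eventually, eventually_ge_atTop 8] with n hG hF hn s hs
  rw [← hEx, ← hPe] at hG hF
  have hR := hRe n
  set pad := padn R n with hpad
  have hpl : pad.length = 2 ^ R.eval n := by rw [hpad, padn, List.length_replicate]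
  let f : FeatE := ((e, List.replicate (m n) ()), (e', List.replicate (m n) ()),
    (List.replicate (U n) (), s), (List.range (Λ n + 1)).map a)
  -- the length of the feature
  have ht : (bits f).length ≤ P.eval n := by
    refine le_trans ?_ hF
    have h1 := sz_listBool_le s
    have h2 := sz_map_range_le a ha (Λ n) (Λ n + 1) le_rfl
    have h3 : (bits f).length = (sz e + (2 * m n + 1) + 1) + ((sz e' + (2 * m n + 1) + 1) +
        (((2 * U n + 1) + sz s + 1) + sz ((List.range (Λ n + 1)).map a) + 1) + 1) + 1 := by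
      rw [bits_length]
      have e1 : sz f = sz (e, List.replicate (m n) ()) + sz ((e', List.replicate (m n) ()),
        (List.replicate (U n) (), s), (List.range (Λ n + 1)).map a) + 1 := sz_pair _ _
      have e2 : sz ((e', List.replicate (m n) ()),
        (List.replicate (U n) (), s), (List.range (Λ n + 1)).map a) =
          sz (e', List.replicate (m n) ()) + sz ((List.replicate (U n) (), s),
            (List.range (Λ n + 1)).map a) + 1 := sz_pair _ _
      have e3 : sz ((List.replicate (U n) (), s), (List.range (Λ n + 1)).map a) =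
        sz (List.replicate (U n) (), s) + sz ((List.range (Λ n + 1)).map a) + 1 := sz_pair _ _
      have e4 : sz (e, List.replicate (m n) ()) = sz e + sz (List.replicate (m n) ()) + 1 :=
        sz_pair _ _
      have e5 : sz (e', List.replicate (m n) ()) = sz e' + sz (List.replicate (m n) ()) + 1 :=
        sz_pair _ _
      have e6 : sz (List.replicate (U n) (), s) = sz (List.replicate (U n) ()) + sz s + 1 :=
        sz_pair _ _
      rw [e1, e2, e3, e4, e5, e6, sz_replicate_unit, sz_replicate_unit]
    rw [h3]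
    have hs' : s.length ≤ U n := hs
    change _ ≤ (sz e + sz e' + 4 * m n + 6 * U n + 20) +
      ((Λ n + 1) ^ 1 * (4 * (c' * (Λ n + 1) ^ d') + 2) + 1)
    rw [pow_one]
    omega
  -- the universal set
  have hin : ∀ y : List Bool, y.length ≤ Λ n →
      (inK V p y ((List.range (Λ n + 1)).map a) pad = true ↔ y ∈ KSet) := by
    intro y hy
    unfold inK
    have h1 : ((List.range (Λ n + 1)).map a).getD y.length [] = a y.length := by
      rw [List.getD_eq_getElem?_getD, List.getElem?_map, List.getElem?_range (by omega)]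
      rfl
    rw [h1, hKE y]
    refine inE_iff hE0 ?_
    rw [hpl]
    refine Nat.pow_le_pow_right (by norm_num) ?_
    have h2 : (bits (y, a y.length)).length ≤ G n := by
      rw [bits_length]
      have e1 : sz (y, a y.length) = sz y + sz (a y.length) + 1 := sz_pair _ _
      have h3 := sz_listBool_le y
      have h4 := sz_listBool_le (a y.length)
      have h5 := ha y.length
      have h6 : c' * (y.length + 1) ^ d' ≤ A1 n :=
        Nat.mul_le_mul_left _ (Nat.pow_le_pow_left (by omega) _)
      change _ ≤ 4 * (Λ n + A1 n) + 3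
      omega
    have h3 := eval_mono'' p (h2.trans hG)
    omega
  -- the value of the feature
  have hS : ∀ x : List Bool, x.length = n →
      (x ∈ Acc C c B B' n s ↔ valB V p pad x (bits f) = true) := by
    intro x hx
    unfold valB
    rw [unbits_bits, Option.any_some]
    unfold val
    have hU : allB (List.replicate (U n) ()).length pad = allStr (U n) := by
      rw [List.length_replicate]
      refine allB_eq ?_
      rw [hpl]
      refine Nat.pow_le_pow_right (by norm_num) ?_
      have h1 : U n ≤ G n := by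
        change U n ≤ 4 * ((sz e + sz e' + 4 * (4 * (n + 2 * U n) + 5) + 2 * m n + 4) + A1 n) + 3
        omega
      omega
    change _ ↔ (allB (List.replicate (U n) ()).length pad).any _ = true
    rw [hU, List.any_eq_true]
    have hz : ∀ u : List Bool, u.length ≤ U n → (bits (x, u, s)).length ≤ Z n := by
      intro u hu
      have h1 := length_triple_le x u s
      have hs' : s.length ≤ U n := hs
      change _ ≤ 4 * (n + 2 * U n) + 5
      omega
    have hB1 : ∀ u : List Bool, u.length ≤ U n →
        (bits (x, u, s) ∈ B ↔ inK V p (inst (e, List.replicate (m n) ()) (bits (x, u, s)))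
          ((List.range (Λ n + 1)).map a) pad = true) := by
      intro u hu
      have h1 := hz u hu
      have h2 := length_inst_le e (m n) (bits (x, u, s))
      rw [hin _ (by
        change _ ≤ sz e + sz e' + 4 * Z n + 2 * m n + 4
        omega)]
      refine he _ _ ?_
      exact Nat.mul_le_mul (Nat.le_add_right _ _) (Nat.pow_le_pow_left (by omega) _)
    have hB2 : ∀ u : List Bool, u.length ≤ U n →
        (bits (x, u, s) ∈ B' ↔ inK V p (inst (e', List.replicate (m n) ()) (bits (x, u, s)))
          ((List.range (Λ n + 1)).map a) pad = true) := by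
      intro u hu
      have h1 := hz u hu
      have h2 := length_inst_le e' (m n) (bits (x, u, s))
      rw [hin _ (by
        change _ ≤ sz e + sz e' + 4 * Z n + 2 * m n + 4
        omega)]
      refine he' _ _ ?_
      exact Nat.mul_le_mul (Nat.le_add_left _ _) (Nat.pow_le_pow_left (by omega) _)
    constructor
    · rintro ⟨_, u, hu, h1, h2⟩
      refine ⟨u, mem_allStr.2 hu, ?_⟩
      rw [Bool.and_eq_true]
      refine ⟨(hB1 u hu).1 h1, ?_⟩
      rw [Bool.not_eq_true']
      by_contra h3
      exact h2 ((hB2 u hu).2 (by simpa using h3))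
    · rintro ⟨u, hu, h⟩
      rw [mem_allStr] at hu
      rw [Bool.and_eq_true, Bool.not_eq_true'] at h
      refine ⟨hx, u, hu, (hB1 u hu).2 h.1, fun h1 => ?_⟩
      have h2 := (hB2 u hu).1 h1
      rw [show inK V p (inst (e', List.replicate (m n) ()) (bits (x, u, s)))
        ((List.range (Λ n + 1)).map a) pad = false from h.2] at h2
      simp at h2
  -- conclusion
  obtain ⟨r1, r2, r3, r4⟩ := DiagE_props (V := V) (p := p) (P := P) (R := R) (n := n)
    (by omega) (by omega) (by omega) ht hS
  have hexp : P.eval n + 7 ≤ (n + 1) ^ (Ex + 1) := by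
    have h3 : (n + 1) ^ (Ex + 1) = (n + 1) ^ Ex * (n + 1) := pow_succ _ _
    rw [hPe, h3]
    have h1 : 1 ≤ (n + 1) ^ Ex := Nat.one_le_pow _ _ (by omega)
    have h2 := Nat.mul_le_mul_left ((n + 1) ^ Ex) (show 9 ≤ n + 1 by omega)
    omega
  have hAcc : {x : List Bool | x.length = n ∧ x ∈ Acc C c B B' n s} = Acc C c B B' n s := by
    ext x
    constructor
    · exact fun h => h.2
    · exact fun h => ⟨h.1, h⟩
  refine ⟨r1.trans (Nat.add_le_add_left (Nat.mul_le_mul_left _ hexp) _),
    r2.trans (Nat.add_le_add_left (Nat.mul_le_mul_left _ hexp) _), fun h => ?_, fun h => ?_⟩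
  · rw [← hAcc]
    exact (r3 (fun x _ hx => h hx)).trans (by omega)
  · exact (r4 (fun x hx hxD => h ⟨hx, hxD⟩)).trans (by omega)

end Pool.Agent.T9h36.NY
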