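import Mathlib

set_option autoImplicit false

/-!
# Labels chosen by a martingale argument

Every feature `t` has a weight, which is multiplied by `μ x t l` when the example `x` gets the label
`l`; the average of `μ x t true` and `μ x t false` is at most `K`.  The labels are chosen in such
a way that the total weight grows by a factor of at most `K` in every step.
-/

namespace Pool.Agent.T9h36.NY

variable {X F : Type}

/-- The weight of the feature `t` after the labelled examples `h`. -/
def wt (μ : X → F → Bool → ℕ) (t : F) (h : List (X × Bool)) : ℕ :=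
  h.foldr (fun p w => w * μ p.1 t p.2) 1

/-- The total weight if `x` gets the label `l`. -/
def tot (μ : X → F → Bool → ℕ) (L : List F) (h : List (X × Bool)) (x : X) (l : Bool) : ℕ :=
  (L.map fun t => wt μ t h * μ x t l).sum

/-- The next label. -/
def label (μ : X → F → Bool → ℕ) (L : List F) (h : List (X × Bool)) (x : X) : Bool :=
  decide (tot μ L h x true ≤ tot μ L h x false)

/-- The labelled examples. -/
def hist (μ : X → F → Bool → ℕ) (L : List F) (xs : List X) : List (X × Bool) :=
  xs.foldr (fun x h => (x, label μ L h x) :: h) []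

theorem hist_cons (μ : X → F → Bool → ℕ) (L : List F) (x : X) (xs : List X) :
    hist μ L (x :: xs) = (x, label μ L (hist μ L xs) x) :: hist μ L xs := rfl

theorem length_hist (μ : X → F → Bool → ℕ) (L : List F) (xs : List X) :
    (hist μ L xs).length = xs.length := by
  induction xs with
  | nil => rfl
  | cons x xs ih => rw [hist_cons, List.length_cons, List.length_cons, ih]

theorem map_fst_hist (μ : X → F → Bool → ℕ) (L : List F) (xs : List X) :
    (hist μ L xs).map Prod.fst = xs := by
  induction xs with
  | nil => rfl
  | cons x xs ih => rw [hist_cons, List.map_cons, ih]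

theorem wt_cons (μ : X → F → Bool → ℕ) (t : F) (p : X × Bool) (h : List (X × Bool)) :
    wt μ t (p :: h) = wt μ t h * μ p.1 t p.2 := rfl

theorem tot_add (μ : X → F → Bool → ℕ) {K : ℕ} (hμ : ∀ x t, μ x t true + μ x t false ≤ 2 * K)
    (L : List F) (h : List (X × Bool)) (x : X) :
    tot μ L h x true + tot μ L h x false ≤ 2 * K * (L.map fun t => wt μ t h).sum := by
  unfold tot
  rw [← List.sum_map_add, ← List.sum_map_mul_left]
  refine List.sum_le_sum fun t _ => ?_
  rw [← Nat.mul_add, mul_comm (2 * K)]
  exact Nat.mul_le_mul_left _ (hμ x t)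

/-- The potential argument. -/
theorem pot_hist (μ : X → F → Bool → ℕ) {K : ℕ} (hμ : ∀ x t, μ x t true + μ x t false ≤ 2 * K)
    (L : List F) (xs : List X) :
    (L.map fun t => wt μ t (hist μ L xs)).sum ≤ K ^ xs.length * L.length := by
  induction xs with
  | nil => simp [hist, wt]
  | cons x xs ih =>
    rw [hist_cons]
    have h1 := tot_add μ hμ L (hist μ L xs) x
    have h2 : (L.map fun t => wt μ t ((x, label μ L (hist μ L xs) x) :: hist μ L xs)).sum =
        tot μ L (hist μ L xs) x (label μ L (hist μ L xs) x) := rfl
    rw [h2]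
    have h3 : 2 * tot μ L (hist μ L xs) x (label μ L (hist μ L xs) x) ≤
        tot μ L (hist μ L xs) x true + tot μ L (hist μ L xs) x false := by
      by_cases hl : tot μ L (hist μ L xs) x true ≤ tot μ L (hist μ L xs) x false
      · have e : label μ L (hist μ L xs) x = true := by simp [label, hl]
        rw [e]
        omega
      · have e : label μ L (hist μ L xs) x = false := by simp [label, hl]
        rw [e]
        omega
    have h4 : 2 * K * (L.map fun t => wt μ t (hist μ L xs)).sum ≤
        2 * (K ^ (x :: xs).length * L.length) := by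
      rw [List.length_cons, pow_succ]
      calc 2 * K * (L.map fun t => wt μ t (hist μ L xs)).sum
          ≤ 2 * K * (K ^ xs.length * L.length) := Nat.mul_le_mul_left _ ih
        _ = 2 * (K ^ xs.length * K * L.length) := by ring
    omega

theorem wt_hist_le (μ : X → F → Bool → ℕ) {K : ℕ} (hμ : ∀ x t, μ x t true + μ x t false ≤ 2 * K)
    (L : List F) (xs : List X) {t : F} (ht : t ∈ L) :
    wt μ t (hist μ L xs) ≤ K ^ xs.length * L.length :=
  (List.single_le_sum (by simp) _ (List.mem_map_of_mem ht)).trans (pot_hist μ hμ L xs)

/-! ### The four kinds of multipliers -/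

/-- The multipliers: kind 0 for agreement of the value `v` with the label `l`, kind 1 for
disagreement, kind 2 for `v ≤ l` and all other kinds for `l ≤ v`. -/
def mul (K kind : ℕ) (v l : Bool) : ℕ :=
  if kind = 0 then (if v = l then K + 1 else K - 1)
  else if kind = 1 then (if v = l then K - 1 else K + 1)
  else if kind = 2 then (if v = true then (if l = true then 2 * K else 0) else K)
  else (if v = true then K else (if l = true then 0 else 2 * K))

theorem mul_add {K : ℕ} (hK : 1 ≤ K) (kind : ℕ) (v : Bool) :
    mul K kind v true + mul K kind v false ≤ 2 * K := by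
  unfold mul
  cases v
  · simp only [Bool.false_eq_true, if_false, if_true]
    split_ifs <;> first | omega | simp_all
  · simp only [Bool.true_eq_false, if_false, if_true]
    split_ifs <;> first | omega | simp_all

theorem mul_le {K : ℕ} (hK : 1 ≤ K) (kind : ℕ) (v l : Bool) : mul K kind v l ≤ 2 * K := by
  unfold mul
  split_ifs <;> omega

/-- The multiplier of a feature with a kind. -/
def mulF (K : ℕ) (g : X → F → Bool) (x : X) (t : ℕ × F) (l : Bool) : ℕ := mul K t.1 (g x t.2) l

theorem wt_zero (K : ℕ) (g : X → F → Bool) (t : F) (h : List (X × Bool)) :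
    wt (mulF K g) (0, t) h = (K + 1) ^ (h.countP fun p => g p.1 t == p.2) *
      (K - 1) ^ (h.length - h.countP fun p => g p.1 t == p.2) := by
  induction h with
  | nil => simp [wt]
  | cons p h ih =>
    have h1 : h.countP (fun p => g p.1 t == p.2) ≤ h.length := List.countP_le_length
    rw [wt_cons, ih, List.countP_cons, List.length_cons]
    unfold mulF mul
    by_cases hp : g p.1 t = p.2
    · simp only [hp, if_true, beq_self_eq_true]
      have e : h.length + 1 - (h.countP (fun p => g p.1 t == p.2) + 1) =
          h.length - h.countP (fun p => g p.1 t == p.2) := by omega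
      rw [e, pow_succ]
      ring
    · have e0 : (g p.1 t == p.2) = false := by simpa using hp
      simp only [hp, if_true, if_false, e0, Bool.false_eq_true, add_zero]
      have e : h.length + 1 - h.countP (fun p => g p.1 t == p.2) =
          h.length - h.countP (fun p => g p.1 t == p.2) + 1 := by omega
      rw [e, pow_succ]
      ring

theorem wt_one (K : ℕ) (g : X → F → Bool) (t : F) (h : List (X × Bool)) :
    wt (mulF K g) (1, t) h = (K + 1) ^ (h.countP fun p => !(g p.1 t == p.2)) *
      (K - 1) ^ (h.length - h.countP fun p => !(g p.1 t == p.2)) := by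
  induction h with
  | nil => simp [wt]
  | cons p h ih =>
    have h1 : h.countP (fun p => !(g p.1 t == p.2)) ≤ h.length := List.countP_le_length
    rw [wt_cons, ih, List.countP_cons, List.length_cons]
    unfold mulF mul
    by_cases hp : g p.1 t = p.2
    · simp only [hp, if_true, beq_self_eq_true, Bool.not_true, Bool.false_eq_true, if_false,
        add_zero, one_ne_zero]
      have e : h.length + 1 - h.countP (fun p => !(g p.1 t == p.2)) =
          h.length - h.countP (fun p => !(g p.1 t == p.2)) + 1 := by omega
      rw [e, pow_succ]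
      ring
    · have e0 : (g p.1 t == p.2) = false := by simpa using hp
      simp only [hp, if_true, if_false, e0, Bool.not_false, one_ne_zero]
      have e : h.length + 1 - (h.countP (fun p => !(g p.1 t == p.2)) + 1) =
          h.length - h.countP (fun p => !(g p.1 t == p.2)) := by omega
      rw [e, pow_succ]
      ring

theorem wt_two (K : ℕ) (g : X → F → Bool) (t : F) (h : List (X × Bool))
    (hh : ∀ p ∈ h, g p.1 t = true → p.2 = true) :
    wt (mulF K g) (2, t) h = 2 ^ (h.countP fun p => g p.1 t) * K ^ h.length := by
  induction h with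
  | nil => simp [wt]
  | cons p h ih =>
    rw [wt_cons, ih (fun q hq => hh q (List.mem_cons_of_mem _ hq)), List.countP_cons,
      List.length_cons]
    unfold mulF mul
    by_cases hp : g p.1 t = true
    · have h2 := hh p List.mem_cons_self hp
      simp only [hp, h2, if_true]
      rw [if_neg (by norm_num), if_neg (by norm_num), pow_succ, pow_succ]
      ring
    · simp only [hp, if_true, if_false]
      rw [if_neg (by norm_num), if_neg (by norm_num), pow_succ]
      simp only [Bool.false_eq_true, if_false, add_zero]
      ring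

theorem wt_three (K : ℕ) (g : X → F → Bool) (t : F) (h : List (X × Bool))
    (hh : ∀ p ∈ h, g p.1 t = false → p.2 = false) :
    wt (mulF K g) (3, t) h = 2 ^ (h.countP fun p => !(g p.1 t)) * K ^ h.length := by
  induction h with
  | nil => simp [wt]
  | cons p h ih =>
    rw [wt_cons, ih (fun q hq => hh q (List.mem_cons_of_mem _ hq)), List.countP_cons,
      List.length_cons]
    unfold mulF mul
    by_cases hp : g p.1 t = false
    · have h2 := hh p List.mem_cons_self hp
      simp only [hp, h2, Bool.not_false, if_true]
      rw [if_neg (by norm_num), if_neg (by norm_num), if_neg (by norm_num), pow_succ, pow_succ]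
      simp only [Bool.false_eq_true, if_false]
      ring
    · have hp' : g p.1 t = true := by simpa using hp
      simp only [hp', if_true, Bool.not_true, Bool.false_eq_true, if_false, add_zero]
      rw [if_neg (by norm_num), if_neg (by norm_num), if_neg (by norm_num), pow_succ]
      ring

/-! ### The inequality for the agreement -/

theorem agree_bound {K A N M : ℕ} (hK : 2 ≤ K) (hA : A ≤ N) (hM : 1 ≤ M)
    (h : (K + 1) ^ A * (K - 1) ^ (N - A) ≤ K ^ N * M) :
    2 * (A : ℝ) ≤ N + K * Real.log M + 2 * N / K := by
  have hK0 : (0 : ℝ) < K := by exact_mod_cast (by omega : 0 < K)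
  have hK2 : (2 : ℝ) ≤ K := by exact_mod_cast hK
  have hK1 : ((K - 1 : ℕ) : ℝ) = (K : ℝ) - 1 := by push_cast [Nat.cast_sub (by omega : 1 ≤ K)]; ring
  have hM0 : (0 : ℝ) < M := by exact_mod_cast hM
  have h' : ((K : ℝ) + 1) ^ A * ((K : ℝ) - 1) ^ (N - A) ≤ (K : ℝ) ^ N * M := by
    rw [← hK1]
    exact_mod_cast h
  have hlog := Real.log_le_log (by
    have : (0 : ℝ) < (K : ℝ) - 1 := by linarith
    positivity) h'
  have hKm : (0 : ℝ) < (K : ℝ) - 1 := by linarith
  rw [Real.log_mul (by positivity) (by positivity), Real.log_mul (by positivity) (by positivity),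
    Real.log_pow, Real.log_pow, Real.log_pow] at hlog
  have e1 : Real.log ((K : ℝ) + 1) ≥ Real.log K + (1 / K - (1 / K) ^ 2) := by
    have h1 : Real.log ((K : ℝ) + 1) = Real.log K + Real.log (1 + 1 / K) := by
      rw [← Real.log_mul (by positivity) (by positivity)]
      congr 1
      field_simp
    have h2 := Real.one_sub_inv_le_log_of_pos (show (0 : ℝ) < 1 + 1 / K by positivity)
    have h3 : (1 : ℝ) / K - (1 / K) ^ 2 ≤ 1 - (1 + 1 / (K : ℝ))⁻¹ := by
      rw [div_pow, one_pow]
      have : (1 : ℝ) - (1 + 1 / (K : ℝ))⁻¹ = 1 / (K + 1) := by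
        field_simp
        ring
      rw [this, div_sub_div _ _ (by positivity) (by positivity),
        div_le_div_iff₀ (by positivity) (by positivity)]
      nlinarith [sq_nonneg (K : ℝ)]
    linarith
  have e2 : Real.log ((K : ℝ) - 1) ≥ Real.log K - (1 / K + 2 * (1 / K) ^ 2) := by
    have h1 : Real.log ((K : ℝ) - 1) = Real.log K + Real.log (1 - 1 / K) := by
      have h0 : (0 : ℝ) < 1 - 1 / K := by
        rw [sub_pos, div_lt_one hK0]
        linarith
      rw [← Real.log_mul (by positivity) h0.ne']
      congr 1
      field_simp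
    have h0 : (0 : ℝ) < 1 - 1 / K := by
      rw [sub_pos, div_lt_one hK0]
      linarith
    have h2 := Real.one_sub_inv_le_log_of_pos h0
    have h3 : -((1 : ℝ) / K + 2 * (1 / K) ^ 2) ≤ 1 - (1 - 1 / (K : ℝ))⁻¹ := by
      have : (1 : ℝ) - (1 - 1 / (K : ℝ))⁻¹ = -(1 / (K - 1)) := by
        have hne : (K : ℝ) - 1 ≠ 0 := hKm.ne'
        have : (1 - 1 / (K : ℝ)) = (K - 1) / K := by field_simp
        rw [this, inv_div]
        field_simp
        ring
      rw [this, neg_le_neg_iff, div_pow, one_pow]
      rw [show (1 : ℝ) / K + 2 * (1 / K ^ 2) = (K + 2) / K ^ 2 by field_simp,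
        div_le_div_iff₀ hKm (by positivity)]
      nlinarith
    linarith
  have hNA : ((N - A : ℕ) : ℝ) = (N : ℝ) - A := by push_cast [Nat.cast_sub hA]; ring
  rw [hNA] at hlog
  have hA0 : (0 : ℝ) ≤ A := Nat.cast_nonneg _
  have hAN : (A : ℝ) ≤ N := by exact_mod_cast hA
  have m1 := mul_le_mul_of_nonneg_left e1.le hA0
  have m2 := mul_le_mul_of_nonneg_left e2.le (show (0 : ℝ) ≤ (N : ℝ) - A by linarith)
  set y : ℝ := 1 / K with hy
  have hy0 : 0 < y := by positivity
  have hyK : y * K = 1 := by rw [hy]; field_simp
  have key : (2 * (A : ℝ) - N) * y ≤ Real.log M + 2 * N * y ^ 2 := by nlinarith [sq_nonneg y]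
  have e3 := mul_le_mul_of_nonneg_right key hK0.le
  have e4 : (2 * (A : ℝ) - N) * y * K = 2 * (A : ℝ) - N := by rw [mul_assoc, hyK, mul_one]
  have e5 : (Real.log M + 2 * N * y ^ 2) * K = K * Real.log M + 2 * N * y := by
    have : y ^ 2 * K = y := by rw [pow_two, mul_assoc, hyK, mul_one]
    rw [add_mul, mul_assoc, this]
    ring
  rw [e4, e5] at e3
  have e6 : 2 * (N : ℝ) * y = 2 * N / K := by rw [hy]; ring
  linarith

end Pool.Agent.T9h36.NY
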