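import Pool.Agent.T9h36.NX.Block
import Pool.Agent.T9h36.NY.Mart

set_option autoImplicit false

/-!
# The diagonal language of the martingale argument
-/

namespace Pool.Agent.T9h36.NY

open Pool.Agent.NPC Pool.Agent.H660R2.NX Pool.Agent.T9h36.NX Turing

attribute [local irreducible] unpair

/-- The data of a feature: codes and paddings of the positive and of the negative instance of the
universal set, the bound for `u` and the advice string, and the advice strings for the universal
set, for all lengths. -/
abbrev FeatE : Type :=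
  (Code × List Unit) × (Code × List Unit) × (List Unit × List Bool) × List (List Bool)

/-- Whether the instance `y` belongs to the universal set, according to the advice. -/
def inK (V : List Bool → List Bool) (p : Polynomial ℕ) (y : List Bool) (adv : List (List Bool))
    (pad : List Unit) : Bool :=
  inE V p (bits (y, adv.getD y.length [])) pad

/-- The value of the feature `f` for the input `x`. -/
def val (V : List Bool → List Bool) (p : Polynomial ℕ) (x : List Bool) (f : FeatE)
    (pad : List Unit) : Bool :=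
  (allB f.2.2.1.1.length pad).any fun u =>
    inK V p (inst f.1 (bits (x, u, f.2.2.1.2))) f.2.2.2 pad &&
      !inK V p (inst f.2.1 (bits (x, u, f.2.2.1.2))) f.2.2.2 pad

/-- The value of a feature given by its code. -/
def valB (V : List Bool → List Bool) (p : Polynomial ℕ) (pad : List Unit) (x t : List Bool) :
    Bool :=
  (unbits FeatE t).any fun f => val V p x f pad

section

variable {V : List Bool → List Bool} (hV : PolyTime V) (p : Polynomial ℕ)

include hV

theorem poly_inK {α : Type} [TEnc α] {y : α → List Bool} {adv : α → List (List Bool)}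
    {pad : α → List Unit} (hy : NPC.Poly y) (hadv : NPC.Poly adv) (hpad : NPC.Poly pad) :
    NPC.Poly (fun a => inK V p (y a) (adv a) (pad a)) := by
  unfold inK
  refine poly_inE hV p (poly_bits' (NPC.Poly.pair hy ?_)) hpad
  exact NPC.Poly.getD hadv (NPC.Poly.length hy) (by fun_prop)

theorem poly_val : NPC.Poly (fun q : List Bool × FeatE × List Unit => val V p q.1 q.2.1 q.2.2) := by
  unfold val
  have h1 : NPC.Poly (fun r : (List Bool × FeatE × List Unit) × List Bool =>
      inst r.1.2.1.1 (bits (r.1.1, r.2, r.1.2.1.2.2.1.2))) := by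
    unfold inst
    have hz : NPC.Poly (fun r : (List Bool × FeatE × List Unit) × List Bool =>
      bits (r.1.1, r.2, r.1.2.1.2.2.1.2)) := poly_bits' (by fun_prop)
    exact poly_bits' (by fun_prop)
  have h2 : NPC.Poly (fun r : (List Bool × FeatE × List Unit) × List Bool =>
      inst r.1.2.1.2.1 (bits (r.1.1, r.2, r.1.2.1.2.2.1.2))) := by
    unfold inst
    have hz : NPC.Poly (fun r : (List Bool × FeatE × List Unit) × List Bool =>
      bits (r.1.1, r.2, r.1.2.1.2.2.1.2)) := poly_bits' (by fun_prop)
    exact poly_bits' (by fun_prop)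
  have h4 : NPC.Poly (fun q : List Bool × FeatE × List Unit =>
      allB q.2.1.2.2.1.1.length q.2.2) := poly_allB (UPoly.length (by fun_prop)) (by fun_prop)
  exact NPC.Poly.any h4 (NPC.Poly.and (poly_inK hV p h1 (by fun_prop) (by fun_prop))
    (NPC.Poly.not (poly_inK hV p h2 (by fun_prop) (by fun_prop))))

theorem poly_valB : NPC.Poly (fun q : List Unit × List Bool × List Bool =>
    valB V p q.1 q.2.1 q.2.2) := by
  unfold valB
  have h0 : NPC.Poly (unbits FeatE) := poly_unbits
  have h1 : NPC.Poly (fun q : List Unit × List Bool × List Bool => unbits FeatE q.2.2) :=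
    h0.comp (by fun_prop)
  refine NPC.Poly.optAny_fp h1 ?_
  exact (poly_val hV p).comp (f := fun r : (List Unit × List Bool × List Bool) × FeatE =>
    (r.1.2.1, r.2, r.1.1)) (by fun_prop)

end

/-! ### The poly-time computations with weights -/

section

variable {X F : Type} [TEnc X] [TEnc F]

theorem poly_mul {β : Type} [TEnc β] {K kind : β → ℕ} {v l : β → Bool} (hK : NPC.Poly K)
    (hk : NPC.Poly kind) (hv : NPC.Poly v) (hl : NPC.Poly l) :
    NPC.Poly (fun b => mul (K b) (kind b) (v b) (l b)) := by
  unfold mul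
  refine NPC.Poly.ite (NPC.Poly.dec_eq hk (by fun_prop)) ?_ (NPC.Poly.ite
    (NPC.Poly.dec_eq hk (by fun_prop)) ?_ (NPC.Poly.ite (NPC.Poly.dec_eq hk (by fun_prop)) ?_ ?_))
  · exact NPC.Poly.ite (NPC.Poly.dec_eq hv hl) (by fun_prop) (by fun_prop)
  · exact NPC.Poly.ite (NPC.Poly.dec_eq hv hl) (by fun_prop) (by fun_prop)
  · exact NPC.Poly.ite (NPC.Poly.decide_bool hv) (NPC.Poly.ite (NPC.Poly.decide_bool hl)
      (by fun_prop) (by fun_prop)) (by fun_prop)
  · exact NPC.Poly.ite (NPC.Poly.decide_bool hv) (by fun_prop)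
      (NPC.Poly.ite (NPC.Poly.decide_bool hl) (by fun_prop) (by fun_prop))

theorem wt_mulF_le {k : ℕ} (g : X → F → Bool) (t : ℕ × F) (h : List (X × Bool)) :
    wt (mulF (2 ^ k) g) t h ≤ 2 ^ ((k + 1) * h.length) := by
  induction h with
  | nil => simp [wt]
  | cons p h ih =>
    rw [wt_cons, List.length_cons]
    have h1 : mulF (2 ^ k) g p.1 t p.2 ≤ 2 ^ (k + 1) := by
      rw [pow_succ, mul_comm]
      exact mul_le Nat.one_le_two_pow _ _ _
    calc wt (mulF (2 ^ k) g) t h * mulF (2 ^ k) g p.1 t p.2
        ≤ 2 ^ ((k + 1) * h.length) * 2 ^ (k + 1) := Nat.mul_le_mul ih h1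
      _ = 2 ^ ((k + 1) * (h.length + 1)) := by rw [← pow_add]; congr 1

variable {α : Type} [TEnc α] {g : α → X → F → Bool}
  (hg : NPC.Poly (fun q : α × X × F => g q.1 q.2.1 q.2.2))

include hg

theorem poly_mulF {β : Type} [TEnc β] {a : β → α} {kk : β → List Unit} {x : β → X}
    {t : β → ℕ × F} {l : β → Bool} (ha : NPC.Poly a) (hk : NPC.Poly kk) (hx : NPC.Poly x)
    (ht : NPC.Poly t) (hl : NPC.Poly l) :
    NPC.Poly (fun b => mulF (2 ^ (kk b).length) (g (a b)) (x b) (t b) (l b)) := by
  unfold mulF
  refine poly_mul (poly_two_pow (UPoly.length hk)) (by fun_prop) ?_ hl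
  exact hg.comp (f := fun b => (a b, x b, (t b).2)) (by fun_prop)

theorem poly_wtF {β : Type} [TEnc β] {a : β → α} {kk : β → List Unit} {t : β → ℕ × F}
    {h : β → List (X × Bool)} (ha : NPC.Poly a) (hk : NPC.Poly kk) (ht : NPC.Poly t)
    (hh : NPC.Poly h) :
    NPC.Poly (fun b => wt (mulF (2 ^ (kk b).length) (g (a b))) (t b) (h b)) := by
  obtain ⟨q, hq⟩ := hh.sz_le
  obtain ⟨q', hq'⟩ := hk.sz_le
  refine NPC.Poly.foldr (l := h) (s := fun _ => 1)
    (F := fun b p w => w * mulF (2 ^ (kk b).length) (g (a b)) p.1 (t b) p.2) hh (by fun_prop) ?_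
    (4 * ((q' + 1) * q + 1) + 1) ?_
  · have h1 : NPC.Poly (fun r : β × (X × Bool) × ℕ =>
        mulF (2 ^ (kk r.1).length) (g (a r.1)) r.2.1.1 (t r.1) r.2.1.2) :=
      poly_mulF hg (ha.comp (by fun_prop)) (hk.comp (by fun_prop)) (by fun_prop)
        (ht.comp (by fun_prop)) (by fun_prop)
    fun_prop
  · intro b k hk'
    have h1 := wt_mulF_le (k := (kk b).length) (g (a b)) (t b) ((h b).drop k)
    have h2 := hq b
    have h3 := length_lt_sz (h b)
    have h2' := hq' b
    have h3' := length_lt_sz (kk b)
    have h4 : ((h b).drop k).length ≤ (h b).length := by simp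
    have h5 : (wt (mulF (2 ^ (kk b).length) (g (a b))) (t b) ((h b).drop k)).size ≤
        ((kk b).length + 1) * (h b).length + 1 := by
      rw [Nat.size_le]
      refine lt_of_le_of_lt (h1.trans (Nat.pow_le_pow_right (by norm_num)
        (Nat.mul_le_mul_left _ h4))) ?_
      rw [pow_succ]
      have := Nat.one_le_two_pow (n := ((kk b).length + 1) * (h b).length)
      omega
    have h6 := sz_nat_le (wt (mulF (2 ^ (kk b).length) (g (a b))) (t b) ((h b).drop k))
    change sz (wt (mulF (2 ^ (kk b).length) (g (a b))) (t b) ((h b).drop k)) ≤ _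
    simp only [Polynomial.eval_add, Polynomial.eval_mul, Polynomial.eval_ofNat,
      Polynomial.eval_one]
    have h7 : ((kk b).length + 1) * (h b).length ≤
        (q'.eval (sz b) + 1) * q.eval (sz b) :=
      Nat.mul_le_mul (by omega) (by omega)
    omega

theorem poly_totF {β : Type} [TEnc β] {a : β → α} {kk : β → List Unit} {L : β → List (ℕ × F)}
    {h : β → List (X × Bool)} {x : β → X} {l : β → Bool} (ha : NPC.Poly a) (hk : NPC.Poly kk)
    (hL : NPC.Poly L) (hh : NPC.Poly h) (hx : NPC.Poly x) (hl : NPC.Poly l) :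
    NPC.Poly (fun b => tot (mulF (2 ^ (kk b).length) (g (a b))) (L b) (h b) (x b) (l b)) := by
  unfold tot
  have h1 : NPC.Poly (fun r : β × (ℕ × F) =>
      mulF (2 ^ (kk r.1).length) (g (a r.1)) (x r.1) r.2 (l r.1)) :=
    poly_mulF hg (ha.comp (by fun_prop)) (hk.comp (by fun_prop)) (hx.comp (by fun_prop))
      (by fun_prop) (hl.comp (by fun_prop))
  have h2 : NPC.Poly (fun r : β × (ℕ × F) =>
      wt (mulF (2 ^ (kk r.1).length) (g (a r.1))) r.2 (h r.1)) :=
    poly_wtF hg (ha.comp (by fun_prop)) (hk.comp (by fun_prop)) (by fun_prop)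
      (hh.comp (by fun_prop))
  have h3 : NPC.Poly (fun r : β × (ℕ × F) =>
      wt (mulF (2 ^ (kk r.1).length) (g (a r.1))) r.2 (h r.1) *
        mulF (2 ^ (kk r.1).length) (g (a r.1)) (x r.1) r.2 (l r.1)) := by fun_prop
  exact NPC.Poly.sum (NPC.Poly.map hL h3)

theorem poly_labelF {β : Type} [TEnc β] {a : β → α} {kk : β → List Unit} {L : β → List (ℕ × F)}
    {h : β → List (X × Bool)} {x : β → X} (ha : NPC.Poly a) (hk : NPC.Poly kk)
    (hL : NPC.Poly L) (hh : NPC.Poly h) (hx : NPC.Poly x) :
    NPC.Poly (fun b => label (mulF (2 ^ (kk b).length) (g (a b))) (L b) (h b) (x b)) := by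
  unfold label
  exact NPC.Poly.decide_le (poly_totF hg ha hk hL hh hx (by fun_prop))
    (poly_totF hg ha hk hL hh hx (by fun_prop))

theorem poly_histF {β : Type} [TEnc β] {a : β → α} {kk : β → List Unit} {L : β → List (ℕ × F)}
    {xs : β → List X} (ha : NPC.Poly a) (hk : NPC.Poly kk)
    (hL : NPC.Poly L) (hxs : NPC.Poly xs) :
    NPC.Poly (fun b => hist (mulF (2 ^ (kk b).length) (g (a b))) (L b) (xs b)) := by
  obtain ⟨q, hq⟩ := hxs.sz_le
  refine NPC.Poly.foldr (l := xs) (s := fun _ => ([] : List (X × Bool)))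
    (F := fun b x h => (x, label (mulF (2 ^ (kk b).length) (g (a b))) (L b) h x) :: h) hxs
    (by fun_prop) ?_ (6 * q + 5) ?_
  · have h1 : NPC.Poly (fun r : β × X × List (X × Bool) =>
        label (mulF (2 ^ (kk r.1).length) (g (a r.1))) (L r.1) r.2.2 r.2.1) :=
      poly_labelF hg (ha.comp (by fun_prop)) (hk.comp (by fun_prop)) (hL.comp (by fun_prop))
        (by fun_prop) (by fun_prop)
    exact NPC.Poly.cons (NPC.Poly.pair (by fun_prop) h1) (by fun_prop)
  · intro b k hk
    have key : ∀ ys : List X,
        sz (hist (mulF (2 ^ (kk b).length) (g (a b))) (L b) ys) ≤ 6 * sz ys := by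
      intro ys
      induction ys with
      | nil => simp [hist]
      | cons y ys ih =>
        rw [hist_cons]
        have := sz_bool_le (label (mulF (2 ^ (kk b).length) (g (a b))) (L b)
          (hist (mulF (2 ^ (kk b).length) (g (a b))) (L b) ys) y)
        have h1 := sz_pos ys
        simp only [sz_list_cons, sz_pair]
        omega
    have h1 := key ((xs b).drop k)
    have h2 := NPC.Poly.sz_drop_le (xs b) k
    have h3 := hq b
    change sz (hist (mulF (2 ^ (kk b).length) (g (a b))) (L b) ((xs b).drop k)) ≤ _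
    simp only [Polynomial.eval_add, Polynomial.eval_mul, Polynomial.eval_ofNat]
    omega

end

/-! ### The language -/

/-- The features with their kinds. -/
def featL (P : ℕ) (pad : List Unit) : List (ℕ × List Bool) :=
  (allB P pad).flatMap fun t => [(0, t), (1, t), (2, t), (3, t)]

/-- The decision procedure of the diagonal language. -/
def diagE (V : List Bool → List Bool) (p P : Polynomial ℕ) (x : List Bool) (pad : List Unit) :
    Bool :=
  decide ((x, true) ∈ hist (mulF (2 ^ (List.replicate (x.length / 2) ()).length)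
    (valB V p pad)) (featL (P.eval x.length) pad) (inputs x.length pad))

theorem poly_diagE {V : List Bool → List Bool} (hV : PolyTime V) (p P : Polynomial ℕ) :
    NPC.Poly (fun q : List Bool × List Unit => diagE V p P q.1 q.2) := by
  unfold diagE inputs featL
  have h1 : NPC.Poly (fun q : List Bool × List Unit => allB (P.eval q.1.length) q.2) :=
    poly_allB (UPoly.eval (UPoly.length (by fun_prop)) P) (by fun_prop)
  have h1' : NPC.Poly (fun q : List Bool × List Unit =>
      (allB (P.eval q.1.length) q.2).flatMap fun t =>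
        [((0 : ℕ), t), (1, t), (2, t), (3, t)]) := NPC.Poly.flatMap h1 (by fun_prop)
  have h2 : NPC.Poly (fun q : List Bool × List Unit => allB q.1.length q.2) :=
    poly_allB (UPoly.length (by fun_prop)) (by fun_prop)
  have h3 : NPC.Poly (fun q : List Bool × List Unit =>
      (allB q.1.length q.2).filter fun y => decide (y.length = q.1.length)) :=
    NPC.Poly.filter h2 (by fun_prop)
  have h5 : NPC.Poly (fun q : List Bool × List Unit => List.replicate (q.1.length / 2) ()) := by
    refine UPoly.of_le (m := fun q : List Bool × List Unit => q.1.length / 2)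
      (n := fun q => q.1.length) ?_ (UPoly.length (by fun_prop)) (fun q => Nat.div_le_self _ _)
    fun_prop
  have h4 := poly_histF (α := List Unit) (g := fun pad => valB V p pad) (poly_valB hV p)
    (a := fun q : List Bool × List Unit => q.2) (by fun_prop) h5 h1' h3
  exact NPC.Poly.dec_mem (by fun_prop) h4

/-- The diagonal language: padding of length `2 ^ R(n)`. -/
def DiagE (V : List Bool → List Bool) (p P R : Polynomial ℕ) : Set (List Bool) :=
  {x | diagE V p P x (List.replicate (2 ^ R.eval x.length) ()) = true}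

theorem inNEXP_DiagE {V : List Bool → List Bool} (hV : PolyTime V) (p P R : Polynomial ℕ) :
    InNEXP (DiagE V p P R) :=
  inNEXP_of (D := diagE V p P) (poly_diagE hV p P) R fun _ => Iff.rfl

theorem inEXP_DiagE {V : List Bool → List Bool} (hV : PolyTime V) (p P R : Polynomial ℕ) :
    InEXP (DiagE V p P R) :=
  inEXP_of (D := diagE V p P) (poly_diagE hV p P) R fun _ => Iff.rfl

end Pool.Agent.T9h36.NY
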