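import Pool.Agent.T9h36.NY.Lang
import Pool.Agent.T9h36.NY.Defs

set_option autoImplicit false

/-!
# The properties of the diagonal language
-/

namespace Pool.Agent.T9h36.NY

open Pool.Agent.NPC Pool.Agent.H660R2.NX Pool.Agent.T9h36.NX Turing

attribute [local irreducible] unpair

/-- Counting in a list of all strings of length `n`. -/
theorem ncard_eq_countP {n : ℕ} {xs : List (List Bool)} (hnd : xs.Nodup)
    (hxs : ∀ x, x ∈ xs ↔ x.length = n) (Q : List Bool → Prop) [DecidablePred Q] :
    {x : List Bool | x.length = n ∧ Q x}.ncard = xs.countP fun x => decide (Q x) := by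
  classical
  have h1 : {x : List Bool | x.length = n ∧ Q x} =
      ((xs.filter fun x => decide (Q x)).toFinset : Set (List Bool)) := by
    ext x
    simp only [Set.mem_ofPred_eq, List.coe_toFinset, List.mem_filter, decide_eq_true_eq, hxs]
  rw [h1, Set.ncard_coe_finset, List.toFinset_card_of_nodup (hnd.filter _),
    List.countP_eq_length_filter]

theorem length_of_all {n : ℕ} {xs : List (List Bool)} (hnd : xs.Nodup)
    (hxs : ∀ x, x ∈ xs ↔ x.length = n) : xs.length = 2 ^ n := by
  classical
  have h1 : xs.toFinset = (Finset.univ : Finset (List.Vector Bool n)).image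
      List.Vector.toList := by
    ext x
    simp only [List.mem_toFinset, hxs, Finset.mem_image, Finset.mem_univ, true_and]
    constructor
    · intro h
      exact ⟨⟨x, h⟩, rfl⟩
    · rintro ⟨v, rfl⟩
      exact v.2
  have h2 : Function.Injective (List.Vector.toList : List.Vector Bool n → List Bool) :=
    fun v w h => List.Vector.eq v w h
  rw [← List.toFinset_card_of_nodup hnd, h1, Finset.card_image_of_injective _ h2,
    Finset.card_univ, card_vector]
  simp

section

variable {V : List Bool → List Bool} {p P R : Polynomial ℕ} {n : ℕ}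

/-- The padding for the length `n`. -/
def padn (R : Polynomial ℕ) (n : ℕ) : List Unit := List.replicate (2 ^ R.eval n) ()

theorem inputs_spec (hn : n ≤ R.eval n) :
    (inputs n (padn R n)).Nodup ∧ ∀ x, x ∈ inputs n (padn R n) ↔ x.length = n := by
  have e2 : allB n (padn R n) = allStr n :=
    allB_eq (by rw [padn, List.length_replicate]; exact Nat.pow_le_pow_right (by norm_num) hn)
  unfold inputs
  rw [e2]
  refine ⟨(nodup_allStr n).filter _, fun x => ?_⟩
  rw [List.mem_filter, mem_allStr]
  simp only [decide_eq_true_eq]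
  omega

theorem length_featL (hP : P.eval n ≤ R.eval n) :
    (featL (P.eval n) (padn R n)).length ≤ 2 ^ (P.eval n + 3) := by
  have e1 : allB (P.eval n) (padn R n) = allStr (P.eval n) :=
    allB_eq (by rw [padn, List.length_replicate]; exact Nat.pow_le_pow_right (by norm_num) hP)
  unfold featL
  rw [e1, List.length_flatMap]
  simp only [List.length_cons, List.length_nil, List.map_const', List.sum_replicate,
    smul_eq_mul]
  have := length_allStr (P.eval n)
  rw [pow_succ] at this
  have h2 : 2 ^ (P.eval n + 3) = 8 * 2 ^ P.eval n := by rw [pow_add]; ring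
  omega

theorem mem_featL (hP : P.eval n ≤ R.eval n) {t : List Bool} (ht : t.length ≤ P.eval n) {k : ℕ}
    (hk : k < 4) : (k, t) ∈ featL (P.eval n) (padn R n) := by
  have e1 : allB (P.eval n) (padn R n) = allStr (P.eval n) :=
    allB_eq (by rw [padn, List.length_replicate]; exact Nat.pow_le_pow_right (by norm_num) hP)
  unfold featL
  rw [e1, List.mem_flatMap]
  refine ⟨t, mem_allStr.2 ht, ?_⟩
  interval_cases k <;> simp

open Classical in
theorem hist_eq (hn : n ≤ R.eval n) :
    hist (mulF (2 ^ (n / 2)) (valB V p (padn R n))) (featL (P.eval n) (padn R n))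
      (inputs n (padn R n)) =
    (inputs n (padn R n)).map fun x => (x, decide (x ∈ DiagE V p P R)) := by
  obtain ⟨hnd, hin⟩ := inputs_spec hn
  set H := hist (mulF (2 ^ (n / 2)) (valB V p (padn R n))) (featL (P.eval n) (padn R n))
      (inputs n (padn R n)) with hH
  have hfst : H.map Prod.fst = inputs n (padn R n) := map_fst_hist _ _ _
  have hmem : ∀ q ∈ H, q.2 = decide (q.1 ∈ DiagE V p P R) := by
    intro q hq
    have hq1 : q.1 ∈ inputs n (padn R n) := by
      rw [← hfst]
      exact List.mem_map_of_mem hq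
    have hlen1 : q.1.length = n := (hin _).1 hq1
    have hD : q.1 ∈ DiagE V p P R ↔ (q.1, true) ∈ H := by
      change diagE V p P q.1 (List.replicate (2 ^ R.eval q.1.length) ()) = true ↔ _
      unfold diagE
      rw [hlen1, decide_eq_true_iff, List.length_replicate]
      rfl
    have hndm : (H.map Prod.fst).Nodup := by rw [hfst]; exact hnd
    cases h2 : q.2 with
    | true =>
      have : q = (q.1, true) := Prod.ext rfl h2
      rw [this] at hq
      exact (decide_eq_true (hD.2 hq)).symm
    | false =>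
      refine (decide_eq_false fun h3 => ?_).symm
      have h4 := hD.1 h3
      have := List.inj_on_of_nodup_map hndm hq h4 rfl
      rw [this] at h2
      simp at h2
  have h1 : H = H.map (fun q => (q.1, decide (q.1 ∈ DiagE V p P R))) := by
    conv_lhs => rw [← List.map_id H]
    refine List.map_congr_left fun q hq => ?_
    exact Prod.ext rfl (hmem q hq)
  rw [h1, ← hfst, List.map_map]
  rfl

theorem real_bound {A N M Pn : ℕ} (hn : 2 ≤ n) (hN : N = 2 ^ n) (hA : A ≤ N) (hM1 : 1 ≤ M)
    (hM : M ≤ 2 ^ (Pn + 3))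
    (h : (2 ^ (n / 2) + 1) ^ A * (2 ^ (n / 2) - 1) ^ (N - A) ≤ (2 ^ (n / 2)) ^ N * M) :
    2 * A ≤ 2 ^ n + 2 ^ (n / 2) * (Pn + 7) := by
  have hK : 2 ≤ 2 ^ (n / 2) := by
    calc 2 = 2 ^ 1 := by norm_num
      _ ≤ 2 ^ (n / 2) := Nat.pow_le_pow_right (by norm_num) (by omega)
  have h1 := agree_bound hK hA hM1 h
  have h2 : Real.log M ≤ Pn + 3 := by
    have hM0 : (0 : ℝ) < M := by exact_mod_cast hM1
    have h3 : Real.log M ≤ Real.log ((2 : ℝ) ^ (Pn + 3)) :=
      Real.log_le_log hM0 (by exact_mod_cast hM)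
    rw [Real.log_pow] at h3
    have h4 : Real.log 2 ≤ 1 := by
      have := Real.log_two_lt_d9
      linarith
    push_cast at h3
    nlinarith [(Nat.cast_nonneg Pn : (0 : ℝ) ≤ Pn)]
  have h3 : 2 * (N : ℝ) / ((2 ^ (n / 2) : ℕ) : ℝ) ≤ 4 * ((2 ^ (n / 2) : ℕ) : ℝ) := by
    rw [div_le_iff₀ (by positivity)]
    have h4 : 2 ^ n ≤ 2 * (2 ^ (n / 2) * 2 ^ (n / 2)) := by
      rw [← pow_add, ← pow_succ']
      exact Nat.pow_le_pow_right (by norm_num) (by omega)
    have h5 : (N : ℝ) ≤ 2 * (((2 ^ (n / 2) : ℕ) : ℝ) * ((2 ^ (n / 2) : ℕ) : ℝ)) := by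
      rw [hN]
      exact_mod_cast h4
    linarith
  have h4 : (2 * A : ℝ) ≤ ((2 ^ n + 2 ^ (n / 2) * (Pn + 7) : ℕ) : ℝ) := by
    push_cast
    have h5 : ((2 ^ (n / 2) : ℕ) : ℝ) * Real.log M ≤ ((2 ^ (n / 2) : ℕ) : ℝ) * (Pn + 3) :=
      mul_le_mul_of_nonneg_left h2 (Nat.cast_nonneg _)
    rw [hN] at h1 h3
    push_cast at h1 h3 h5
    linarith
  exact_mod_cast h4

open Classical in
/-- The properties of the diagonal language for the length `n` and the feature `t`. -/
theorem DiagE_props (hP : P.eval n ≤ R.eval n) (hn : n ≤ R.eval n) (h2 : 2 ≤ n)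
    {S : Set (List Bool)} {t : List Bool} (ht : t.length ≤ P.eval n)
    (hS : ∀ x : List Bool, x.length = n → (x ∈ S ↔ valB V p (padn R n) x t = true)) :
    2 * {x : List Bool | x.length = n ∧ (x ∈ S ↔ x ∈ DiagE V p P R)}.ncard ≤
        2 ^ n + 2 ^ (n / 2) * (P.eval n + 7) ∧
      2 * {x : List Bool | x.length = n ∧ ¬ (x ∈ S ↔ x ∈ DiagE V p P R)}.ncard ≤
        2 ^ n + 2 ^ (n / 2) * (P.eval n + 7) ∧
      ((∀ x : List Bool, x.length = n → x ∈ S → x ∈ DiagE V p P R) →
        {x : List Bool | x.length = n ∧ x ∈ S}.ncard ≤ P.eval n + 3) ∧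
      ((∀ x : List Bool, x.length = n → x ∈ DiagE V p P R → x ∈ S) →
        {x : List Bool | x.length = n ∧ x ∉ S}.ncard ≤ P.eval n + 3) := by
  obtain ⟨hnd, hin⟩ := inputs_spec hn
  have hlen := length_of_all hnd hin
  set xs := inputs n (padn R n) with hxs
  set g := valB V p (padn R n) with hg
  set L := featL (P.eval n) (padn R n) with hL
  have hμ : ∀ (x : List Bool) (t : ℕ × List Bool), mulF (2 ^ (n / 2)) g x t true +
      mulF (2 ^ (n / 2)) g x t false ≤ 2 * 2 ^ (n / 2) := fun x t =>
    mul_add Nat.one_le_two_pow _ _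
  have hHeq := hist_eq (V := V) (p := p) (P := P) hn
  rw [← hxs, ← hg, ← hL] at hHeq
  have hM := length_featL (n := n) hP
  rw [← hL] at hM
  have hw : ∀ k < 4, wt (mulF (2 ^ (n / 2)) g) (k, t)
      (xs.map fun x => (x, decide (x ∈ DiagE V p P R))) ≤ (2 ^ (n / 2)) ^ xs.length * L.length := by
    intro k hk
    rw [← hHeq]
    exact wt_hist_le _ hμ L xs (mem_featL hP ht hk)
  have hM1 : 1 ≤ L.length := List.length_pos_of_mem (mem_featL hP ht (by norm_num : 0 < 4))
  have hcomp : ∀ (Q : List Bool × Bool → Bool) (Q' : List Bool → Prop) [DecidablePred Q'],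
      (∀ x, x.length = n → (Q (x, decide (x ∈ DiagE V p P R)) = true ↔ Q' x)) →
      (xs.map fun x => (x, decide (x ∈ DiagE V p P R))).countP Q =
        {x : List Bool | x.length = n ∧ Q' x}.ncard := by
    intro Q Q' _ hQ
    rw [ncard_eq_countP hnd hin Q', List.countP_map]
    refine List.countP_congr fun x hx => ?_
    simp only [Function.comp_apply, decide_eq_true_eq]
    exact hQ x ((hin x).1 hx)
  refine ⟨?_, ?_, fun h => ?_, fun h => ?_⟩
  · have h0 := hw 0 (by norm_num)
    rw [wt_zero, List.length_map, hcomp (fun q => g q.1 t == q.2)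
      (fun x => (x ∈ S ↔ x ∈ DiagE V p P R)) (by
        intro x hx
        simp only [beq_iff_eq, hS x hx]
        by_cases h1 : g x t = true <;> by_cases h3 : x ∈ DiagE V p P R <;> simp [h1, h3])] at h0
    refine real_bound h2 hlen ?_ hM1 hM h0
    rw [ncard_eq_countP hnd hin]
    exact List.countP_le_length
  · have h0 := hw 1 (by norm_num)
    rw [wt_one, List.length_map, hcomp (fun q => !(g q.1 t == q.2))
      (fun x => ¬ (x ∈ S ↔ x ∈ DiagE V p P R)) (by
        intro x hx
        simp only [hS x hx]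
        by_cases h1 : g x t = true <;> by_cases h3 : x ∈ DiagE V p P R <;> simp [h1, h3])] at h0
    refine real_bound h2 hlen ?_ hM1 hM h0
    rw [ncard_eq_countP hnd hin]
    exact List.countP_le_length
  · have h0 := hw 2 (by norm_num)
    rw [wt_two _ _ _ _ (by
      intro q hq h1
      rw [List.mem_map] at hq
      obtain ⟨x, hx, rfl⟩ := hq
      simp only at h1 ⊢
      exact decide_eq_true (h x ((hin x).1 hx) ((hS x ((hin x).1 hx)).2 h1))),
      List.length_map, hcomp (fun q => g q.1 t) (fun x => x ∈ S) (by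
        intro x hx
        simp only [hS x hx])] at h0
    have h1 : 2 ^ ({x : List Bool | x.length = n ∧ x ∈ S}.ncard) ≤ 2 ^ (P.eval n + 3) := by
      refine le_trans ?_ hM
      rw [mul_comm] at h0
      exact Nat.le_of_mul_le_mul_left h0 (by positivity)
    exact (Nat.pow_le_pow_iff_right (by norm_num)).1 h1
  · have h0 := hw 3 (by norm_num)
    rw [wt_three _ _ _ _ (by
      intro q hq h1
      rw [List.mem_map] at hq
      obtain ⟨x, hx, rfl⟩ := hq
      simp only at h1 ⊢
      refine decide_eq_false fun h3 => ?_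
      have h4 := (hS x ((hin x).1 hx)).1 (h x ((hin x).1 hx) h3)
      rw [h1] at h4
      simp at h4),
      List.length_map, hcomp (fun q => !(g q.1 t)) (fun x => x ∉ S) (by
        intro x hx
        simp only [hS x hx]
        by_cases h1 : g x t = true <;> simp [h1])] at h0
    have h1 : 2 ^ ({x : List Bool | x.length = n ∧ x ∉ S}.ncard) ≤ 2 ^ (P.eval n + 3) := by
      refine le_trans ?_ hM
      rw [mul_comm] at h0
      exact Nat.le_of_mul_le_mul_left h0 (by positivity)
    exact (Nat.pow_le_pow_iff_right (by norm_num)).1 h1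

end

end Pool.Agent.T9h36.NY
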