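import Pool.Agent.T9h36.NY.TalkMain

set_option autoImplicit false

/-!
# Sending all bits to the advice holder gives `EXP/poly`
-/

namespace Pool.Agent.T9h36.NY

open Pool.Agent.NPC Pool.Agent.H660R2.NX Pool.Agent.T9h36.NX Turing Filter

attribute [local irreducible] unpair

/-- Sets decidable in polynomial time. -/
theorem inNTE_of_poly {b : ℕ} {D : List Bool → Bool} (hD : NPC.Poly D) :
    InNTE b {z | D z = true} := by
  refine ⟨fun y => [D (unpair y).1], 0, polyTime_of_poly (g := fun y => D (unpair y).1)
    (hD.comp (by fun_prop)), fun x => ?_⟩
  simp only [unpair_pairBits, Set.mem_ofPred_eq, List.cons.injEq, and_true, zero_mul, pow_zero]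
  constructor
  · intro h
    exact ⟨[], by simp, h⟩
  · rintro ⟨_, _, h⟩
    exact h

theorem inEXP_of_poly {D : List Bool → Bool} (hD : NPC.Poly D) : InEXP {z | D z = true} :=
  inEXP_of (D := fun z _ => D z) (hD.comp (by fun_prop)) 0 fun _ => Iff.rfl

theorem inEXP_empty : InEXP (∅ : Set (List Bool)) := by
  have h := inEXP_of_poly (D := fun _ => false) (NPC.Poly.const _)
  simpa using h

/-- The test of the algorithm: all bits of `x` have been sent, the last answer was `[true]`. -/
def lastD (z : List Bool) : Bool :=
  (unbits (List Bool × List Bool × List Bool) z).any fun t =>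
    (unbits (List Bool × List (List Bool)) t.2.2).any fun wr =>
      decide (wr.1 = t.1) && decide (wr.2.getD wr.1.length [] = [true])

theorem poly_lastD : NPC.Poly lastD := by
  unfold lastD
  have h0 : NPC.Poly (unbits (List Bool × List Bool × List Bool)) := poly_unbits
  have h0' : NPC.Poly (unbits (List Bool × List (List Bool))) := poly_unbits
  refine NPC.Poly.optAny_fp h0 ?_
  refine NPC.Poly.optAny_fp (o := fun r : List Bool × (List Bool × List Bool × List Bool) =>
    unbits (List Bool × List (List Bool)) r.2.2.2) (h0'.comp (by fun_prop)) ?_
  have h1 : NPC.Poly (fun q : (List Bool × (List Bool × List Bool × List Bool)) ×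
      List Bool × List (List Bool) => q.2.2.getD q.2.1.length []) :=
    NPC.Poly.getD (by fun_prop) (by fun_prop) (by fun_prop)
  exact NPC.Poly.and (NPC.Poly.dec_eq (by fun_prop) (by fun_prop))
    (NPC.Poly.dec_eq h1 (by fun_prop))

/-- The answers of the advice holder, with padding. -/
def holdP (V : List Bool → List Bool) (p : Polynomial ℕ) (z : List Bool) (pad : List Unit) :
    List Bool :=
  (unbits (List Bool × List Bool) z).elim [] fun av =>
    (unbits (List Bool × List Unit) av.1).elim [] fun an =>
      if av.2.length = an.2.length then [inE V p (bits (av.2, an.1)) pad] else []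

theorem poly_holdP {V : List Bool → List Bool} (hV : PolyTime V) (p : Polynomial ℕ) :
    NPC.Poly (fun q : List Bool × List Unit => holdP V p q.1 q.2) := by
  unfold holdP
  have h0 : NPC.Poly (unbits (List Bool × List Bool)) := poly_unbits
  have h0' : NPC.Poly (unbits (List Bool × List Unit)) := poly_unbits
  refine Poly.optElim (o := fun q : List Bool × List Unit =>
    unbits (List Bool × List Bool) q.1) (h0.comp (by fun_prop)) (by fun_prop) ?_
  refine Poly.optElim (o := fun r : (List Bool × List Unit) × (List Bool × List Bool) =>
    unbits (List Bool × List Unit) r.2.1) (h0'.comp (by fun_prop)) (by fun_prop) ?_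
  have h1 : NPC.Poly (fun q : ((List Bool × List Unit) × (List Bool × List Bool)) ×
      List Bool × List Unit => bits (q.1.2.2, q.2.1)) := poly_bits' (by fun_prop)
  have h2 : NPC.Poly (fun q : ((List Bool × List Unit) × (List Bool × List Bool)) ×
      List Bool × List Unit => inE V p (bits (q.1.2.2, q.2.1)) q.1.1.2) :=
    poly_inE hV p h1 (by fun_prop)
  refine NPC.Poly.ite (NPC.Poly.dec_eq (by fun_prop) (by fun_prop)) ?_ (by fun_prop)
  exact NPC.Poly.cons h2 (by fun_prop)

theorem length_holdP_le (V : List Bool → List Bool) (p : Polynomial ℕ) (z : List Bool)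
    (pad : List Unit) : (holdP V p z pad).length ≤ 1 := by
  unfold holdP
  cases unbits (List Bool × List Bool) z with
  | none => simp
  | some av =>
    simp only [Option.elim_some]
    cases unbits (List Bool × List Unit) av.1 with
    | none => simp
    | some an =>
      simp only [Option.elim_some]
      split_ifs <;> simp

theorem sz_map_le {O : ℕ → List Bool} (hO : ∀ i, (O i).length ≤ 1) (k : ℕ) :
    sz ((List.range k).map O) ≤ 6 * k + 1 := by
  induction k with
  | zero => simp
  | succ k ih =>
    have h2 := sz_append ((List.range k).map O) [O k]
    have h3 := sz_listBool_le (O k)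
    have h4 := hO k
    rw [List.range_succ, List.map_append, List.map_cons, List.map_nil]
    have h6 : sz [O k] = sz (O k) + 1 + 1 := by
      rw [sz_list_cons]
      simp
    omega

/-- `EXP/poly` is contained in the class with an advice holder, if `n` bits may be sent. -/
theorem InEXPPoly.inTalk {b c : ℕ} (hc : 1 ≤ c) {L : Set (List Bool)} (h : InEXPPoly L) :
    InTalk b c (fun n => n) L := by
  classical
  obtain ⟨E, q, a, ⟨V, p, hV, hE⟩, ha, hL⟩ := h
  let F : List Bool → List Bool := fun z => holdP V p z (List.replicate (2 ^ p.eval z.length) ())
  have hF : InFEXP F := by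
    refine ⟨fun y => holdP V p (unpair y).1 ((unpair y).2.map fun _ => ()), p, ?_, fun z => ?_⟩
    · refine polyTime_of_poly' ?_
      exact (poly_holdP hV p).comp (f := fun y : List Bool =>
        ((unpair y).1, (unpair y).2.map fun _ => ())) (by fun_prop)
    · simp only [unpair_pairBits, List.map_replicate, F]
  refine ⟨20, 4 * q + 2 * Polynomial.X + 3, fun n => bits (a n, List.replicate n ()), F,
    {z | lastD z = true}, ∅, inNTE_of_poly poly_lastD, inEXP_of_poly poly_lastD, inNTE_empty b,
    inEXP_empty, hF, fun n => ?_, fun x => ?_⟩
  · rw [bits_length]
    have e1 : sz (a n, List.replicate n ()) = sz (a n) + sz (List.replicate n ()) + 1 :=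
      sz_pair _ _
    have h1 := sz_listBool_le (a n)
    have h2 := ha n
    rw [e1, sz_replicate_unit]
    simp only [Polynomial.eval_add, Polynomial.eval_X, Polynomial.eval_mul,
      Polynomial.eval_ofNat]
    omega
  · set n := x.length with hn
    set O : List Bool → List Bool := fun v => F (bits (bits (a n, List.replicate n ()), v)) with hO
    -- the last answer
    have hlast : O x = [decide (bits (x, a n) ∈ E)] := by
      change holdP V p _ _ = _
      unfold holdP
      rw [unbits_bits]
      simp only [Option.elim_some]
      rw [unbits_bits]
      simp only [Option.elim_some, List.length_replicate]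
      rw [if_pos hn.symm]
      congr 1
      have h1 : (bits (x, a n)).length ≤
          (bits (bits (a n, List.replicate n ()), x)).length := by
        rw [bits_length, bits_length, show sz (x, a n) = sz x + sz (a n) + 1 from sz_pair _ _,
          show sz (bits (a n, List.replicate n ()), x) =
            sz (bits (a n, List.replicate n ())) + sz x + 1 from sz_pair _ _]
        have e2 := sz_le_listBool (bits (a n, List.replicate n ()))
        rw [bits_length, show sz (a n, List.replicate n ()) = sz (a n) +
          sz (List.replicate n ()) + 1 from sz_pair _ _] at e2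
        omega
      have h2 := inE_iff (V := V) (p := p) (L := E) hE (y := bits (x, a n))
        (pad := List.replicate (2 ^ p.eval
          (bits (bits (a n, List.replicate n ()), x)).length) ()) (by
        rw [List.length_replicate]
        exact Nat.pow_le_pow_right (by norm_num) (eval_mono'' p h1))
      by_cases h3 : bits (x, a n) ∈ E
      · rw [h2.2 h3, decide_eq_true h3]
      · rw [decide_eq_false h3]
        by_contra h4
        exact h3 (h2.1 (by simpa using h4))
    have hlastD : ∀ u w : List Bool, lastD (bits (x, u, talk O w)) = true ↔
        w = x ∧ bits (x, a n) ∈ E := by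
      intro u w
      unfold lastD talk
      rw [unbits_bits, Option.any_some]
      simp only
      rw [unbits_bits, Option.any_some]
      simp only [Bool.and_eq_true, decide_eq_true_eq]
      refine and_congr_right fun hw => ?_
      subst hw
      have h1 : ((List.range (w.length + 1)).map fun i => O (w.take i)).getD w.length [] =
          O w := by
        rw [List.getD_eq_getElem?_getD, List.getElem?_map, List.getElem?_range (by omega)]
        simp
      rw [h1, hlast]
      simp
    rw [hL x]
    constructor
    · intro h
      refine ⟨[], x, by simp, le_rfl, ?_, (hlastD [] x).2 ⟨rfl, h⟩, by simp⟩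
      unfold talk
      rw [bits_length, show sz (x, (List.range (x.length + 1)).map fun i => O (x.take i)) =
        sz x + sz ((List.range (x.length + 1)).map fun i => O (x.take i)) + 1 from sz_pair _ _]
      have h1 := sz_listBool_le x
      have h2 := sz_map_le (O := fun i => O (x.take i))
        (fun i => length_holdP_le V p _ _) (x.length + 1)
      have h3 : n + 1 ≤ (n + 1) ^ c := Nat.le_self_pow (by omega) _
      have h4 : 20 * (n + 1) ≤ 20 * (n + 1) ^ c := Nat.mul_le_mul_left _ h3
      omega
    · rintro ⟨u, w, _, _, _, h, _⟩
      exact ((hlastD u w).1 h).2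

end Pool.Agent.T9h36.NY
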