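import Pool.Agent.T9h36.NY.Dich

set_option autoImplicit false

/-!
# Talking to an advice holder
-/

namespace Pool.Agent.T9h36.NY

open Pool.Agent.NPC Pool.Agent.H660R2.NX Pool.Agent.T9h36.NX Turing Filter

/-- Functions computable in exponential time: in time polynomial in the length of the input padded
with `2 ^ p(n)` symbols. -/
def InFEXP (F : List Bool → List Bool) : Prop :=
  ∃ (V : List Bool → List Bool) (p : Polynomial ℕ), PolyTime V ∧
    ∀ z, F z = V (pairBits z (List.replicate (2 ^ p.eval z.length) false))

/-- The transcript of the conversation in which the bits of `w` are sent to the advice holder, one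
after the other: the advice holder sends the string `O v` when the bits `v` have been sent to it. -/
def talk (O : List Bool → List Bool) (w : List Bool) : List Bool :=
  bits (w, (List.range (w.length + 1)).map fun i => O (w.take i))

/-- The nonuniform class with an advice holder: the advice holder knows the advice string `a n` of
polynomial length, where `n` is the length of the input `x`, but not `x`, and computes its answers
in exponential time; an algorithm that knows `x` sends at most `m n` bits to the advice holder, and
the whole transcript has length `O(n ^ c)`.  The algorithm is nondeterministic of the form `B \ B'`: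
the input `x` is accepted iff for some string `u` of length `O(n ^ c)` and some correct transcript
`s` the triple `(x, u, s)` is in `B \ B'`, where `B` and `B'` are in `NTIME(2 ^ O(n ^ b)) ∩ EXP`. -/
def InTalk (b c : ℕ) (m : ℕ → ℕ) (L : Set (List Bool)) : Prop :=
  ∃ (C : ℕ) (q : Polynomial ℕ) (a : ℕ → List Bool) (F : List Bool → List Bool)
    (B B' : Set (List Bool)),
    InNTE b B ∧ InEXP B ∧ InNTE b B' ∧ InEXP B' ∧ InFEXP F ∧ (∀ n, (a n).length ≤ q.eval n) ∧
    ∀ x : List Bool, x ∈ L ↔ ∃ u w : List Bool, u.length ≤ C * (x.length + 1) ^ c ∧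
      w.length ≤ m x.length ∧
      (talk (fun v => F (bits (a x.length, v))) w).length ≤ C * (x.length + 1) ^ c ∧
      bits (x, u, talk (fun v => F (bits (a x.length, v))) w) ∈ B ∧
      bits (x, u, talk (fun v => F (bits (a x.length, v))) w) ∉ B'

section

attribute [local irreducible] unpair

theorem take_eq_aux {α : Type} (k : ℕ) : ∀ (l : List α) (j : ℕ),
    ((l.zipIdx j).filter fun q => decide (q.2 < j + k)).map Prod.fst = l.take k
  | [], j => by simp
  | a :: l, j => by
    rw [List.zipIdx_cons]
    cases k with
    | zero =>
      rw [List.take_zero, List.map_eq_nil_iff, List.filter_eq_nil_iff]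
      rintro ⟨b, i⟩ hb
      rw [← List.zipIdx_cons, List.mem_zipIdx_iff_le_and_getElem?_sub] at hb
      simp only [decide_eq_true_eq]
      omega
    | succ k =>
      have ih := take_eq_aux k l (j + 1)
      rw [List.take_succ_cons, ← ih, List.filter_cons_of_pos (by simp), List.map_cons,
        show j + (k + 1) = j + 1 + k by omega]

theorem poly_take {α β : Type} [TEnc α] [TEnc β] {l : α → List β} {k : α → ℕ}
    (hl : NPC.Poly l) (hk : NPC.Poly k) : NPC.Poly (fun a => (l a).take (k a)) := by
  have h : NPC.Poly (fun a =>
      (((l a).zipIdx.filter fun q => decide (q.2 < k a)).map Prod.fst)) := by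
    fun_prop
  refine h.congr fun a => ?_
  have := take_eq_aux (k a) (l a) 0
  simpa using this

/-- The answers of the advice holder, with explicit padding. -/
def FE (V : List Bool → List Bool) (p : Polynomial ℕ) (z : List Bool) (pad : List Unit) :
    List Bool :=
  V (pairBits z (expPad (p.eval z.length) pad))

theorem poly_FE {V : List Bool → List Bool} (hV : PolyTime V) (p : Polynomial ℕ) {α : Type}
    [TEnc α] {z : α → List Bool} {pad : α → List Unit} (hz : NPC.Poly z) (hpad : NPC.Poly pad) :
    NPC.Poly (fun a => FE V p (z a) (pad a)) := by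
  unfold FE
  have h1 : NPC.Poly (fun a => expPad (p.eval (z a).length) (pad a)) :=
    poly_expPad (UPoly.eval (UPoly.length hz) p) hpad
  exact (poly_of_polyTime hV).comp (poly_pairBits hz h1)

theorem FE_eq {V : List Bool → List Bool} {p : Polynomial ℕ} {F : List Bool → List Bool}
    (hF : ∀ z, F z = V (pairBits z (List.replicate (2 ^ p.eval z.length) false)))
    {z : List Bool} {pad : List Unit} (h : 2 ^ p.eval z.length ≤ pad.length) :
    FE V p z pad = F z := by
  unfold FE
  rw [expPad_eq h, hF z]

/-- The transcript, with explicit padding. -/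
def talkE (V : List Bool → List Bool) (p : Polynomial ℕ) (a w : List Bool) (pad : List Unit) :
    List Bool :=
  bits (w, (List.range (w.length + 1)).map fun i => FE V p (bits (a, w.take i)) pad)

theorem poly_talkE {V : List Bool → List Bool} (hV : PolyTime V) (p : Polynomial ℕ) {α : Type}
    [TEnc α] {a w : α → List Bool} {pad : α → List Unit} (ha : NPC.Poly a) (hw : NPC.Poly w)
    (hpad : NPC.Poly pad) : NPC.Poly (fun b => talkE V p (a b) (w b) (pad b)) := by
  unfold talkE
  have h1 : NPC.Poly (fun b => List.range ((w b).length + 1)) :=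
    UPoly.range (UPoly.add (UPoly.length hw) (UPoly.const 1))
  have h2 : NPC.Poly (fun r : α × ℕ => (w r.1).take r.2) :=
    poly_take (hw.comp (by fun_prop)) (by fun_prop)
  have h3 : NPC.Poly (fun r : α × ℕ => bits (a r.1, (w r.1).take r.2)) :=
    poly_bits' (NPC.Poly.pair (ha.comp (by fun_prop)) h2)
  have h4 : NPC.Poly (fun r : α × ℕ => FE V p (bits (a r.1, (w r.1).take r.2)) (pad r.1)) :=
    poly_FE hV p h3 (hpad.comp (by fun_prop))
  exact poly_bits' (NPC.Poly.pair hw (NPC.Poly.map h1 h4))

/-- The decision procedure. -/
def talkD (Cp : Polynomial ℕ) (VF : List Bool → List Bool) (pF : Polynomial ℕ) (D : Two)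
    (z : List Bool) (pad : List Unit) : Bool :=
  (unbits (List Bool × List Bool) z).any fun xy =>
    (unbits (List Bool × List Unit) xy.2).any fun am =>
      (allB (Cp.eval xy.1.length) pad).any fun u =>
        (allB am.2.length pad).any fun w =>
          decide ((talkE VF pF am.1 w pad).length ≤ Cp.eval xy.1.length) &&
          (inE D.V D.p (bits (xy.1, u, talkE VF pF am.1 w pad)) pad &&
            !inE D.V' D.p' (bits (xy.1, u, talkE VF pF am.1 w pad)) pad)

theorem poly_talkD (Cp : Polynomial ℕ) {VF : List Bool → List Bool} (hVF : PolyTime VF)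
    (pF : Polynomial ℕ) (D : Two) :
    NPC.Poly (fun q : List Bool × List Unit => talkD Cp VF pF D q.1 q.2) := by
  unfold talkD
  have h0 : NPC.Poly (unbits (List Bool × List Bool)) := poly_unbits
  have h0' : NPC.Poly (unbits (List Bool × List Unit)) := poly_unbits
  refine NPC.Poly.optAny_fp (o := fun q : List Bool × List Unit =>
    unbits (List Bool × List Bool) q.1) (h0.comp (by fun_prop)) ?_
  refine NPC.Poly.optAny_fp (o := fun r : (List Bool × List Unit) × (List Bool × List Bool) =>
    unbits (List Bool × List Unit) r.2.2) (h0'.comp (by fun_prop)) ?_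
  refine NPC.Poly.any (poly_allB (UPoly.eval (UPoly.length (by fun_prop)) _) (by fun_prop)) ?_
  refine NPC.Poly.any (poly_allB (UPoly.length (by fun_prop)) (by fun_prop)) ?_
  have h1 : NPC.Poly (fun q : ((((List Bool × List Unit) × List Bool × List Bool) ×
      List Bool × List Unit) × List Bool) × List Bool =>
      talkE VF pF q.1.1.2.1 q.2 q.1.1.1.1.2) :=
    poly_talkE hVF pF (by fun_prop) (by fun_prop) (by fun_prop)
  have h2 : NPC.Poly (fun q : ((((List Bool × List Unit) × List Bool × List Bool) ×
      List Bool × List Unit) × List Bool) × List Bool =>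
      bits (q.1.1.1.2.1, q.1.2, talkE VF pF q.1.1.2.1 q.2 q.1.1.1.1.2)) :=
    poly_bits' (NPC.Poly.pair (by fun_prop) (NPC.Poly.pair (by fun_prop) h1))
  have h3 : NPC.Poly (fun q : ((((List Bool × List Unit) × List Bool × List Bool) ×
      List Bool × List Unit) × List Bool) × List Bool => Cp.eval q.1.1.1.2.1.length) :=
    (UPoly.eval (UPoly.length (by fun_prop)) _).toPoly
  exact NPC.Poly.and (NPC.Poly.decide_le (NPC.Poly.length h1) h3)
    (NPC.Poly.and (poly_inE D.hV D.p h2 (by fun_prop))
      (NPC.Poly.not (poly_inE D.hV' D.p' h2 (by fun_prop))))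

end

/-- The class with an advice holder is contained in `EXP/poly`. -/
theorem InTalk.inEXPPoly {b c : ℕ} {m : ℕ → ℕ} (hm : ∃ M, ∀ n, m n ≤ n + M) {L : Set (List Bool)}
    (h : InTalk b c m L) : InEXPPoly L := by
  obtain ⟨C, q, a, F, B, B', _, hB, _, hB', ⟨VF, pF, hVF, hF⟩, ha, hL⟩ := h
  obtain ⟨M, hM⟩ := hm
  obtain ⟨D, hD, hD'⟩ := exists_two hB hB'
  let Cp : Polynomial ℕ := Polynomial.C C * (Polynomial.X + 1) ^ c
  have hCp : ∀ n : ℕ, Cp.eval n = C * (n + 1) ^ c := fun n => by simp [Cp]
  let G1 : Polynomial ℕ := 5 * Polynomial.X + 2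
  let G2 : Polynomial ℕ := 4 * (Polynomial.X + 2 * Cp) + 5
  let R : Polynomial ℕ := Polynomial.X + Cp + pF.comp G1 + D.p.comp G2 + D.p'.comp G2
  have hRe : ∀ k : ℕ, R.eval k = k + Cp.eval k + pF.eval (5 * k + 2) +
      D.p.eval (4 * (k + 2 * Cp.eval k) + 5) + D.p'.eval (4 * (k + 2 * Cp.eval k) + 5) := by
    intro k
    simp only [R, G1, G2, Polynomial.eval_add, Polynomial.eval_X, Polynomial.eval_comp,
      Polynomial.eval_mul, Polynomial.eval_ofNat]
  let E : Set (List Bool) := {z | talkD Cp VF pF D z
    (List.replicate (2 ^ R.eval z.length) ()) = true}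
  refine ⟨E, 4 * q + 2 * (Polynomial.X + Polynomial.C M) + 3,
    fun n => bits (a n, List.replicate (m n) ()), inEXP_of (poly_talkD Cp hVF pF D) R
      (fun x => Iff.rfl), fun n => ?_, fun x => ?_⟩
  · rw [bits_length]
    have e1 : sz (a n, List.replicate (m n) ()) = sz (a n) + sz (List.replicate (m n) ()) + 1 :=
      sz_pair _ _
    have h1 := sz_listBool_le (a n)
    have h2 := ha n
    have h3 := hM n
    rw [e1, sz_replicate_unit]
    simp only [Polynomial.eval_add, Polynomial.eval_X, Polynomial.eval_mul,
      Polynomial.eval_ofNat, Polynomial.eval_C]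
    omega
  · set z := bits (x, bits (a x.length, List.replicate (m x.length) ())) with hz
    set pad : List Unit := List.replicate (2 ^ R.eval z.length) () with hpad
    have hpl : pad.length = 2 ^ R.eval z.length := by rw [hpad, List.length_replicate]
    have hzl : sz x + sz (a x.length) + 2 * m x.length + 3 ≤ z.length := by
      rw [hz, bits_length]
      have e1 : sz (x, bits (a x.length, List.replicate (m x.length) ())) =
        sz x + sz (bits (a x.length, List.replicate (m x.length) ())) + 1 := sz_pair _ _
      have e2 := sz_le_listBool (bits (a x.length, List.replicate (m x.length) ()))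
      rw [bits_length, show sz (a x.length, List.replicate (m x.length) ()) = sz (a x.length) +
        sz (List.replicate (m x.length) ()) + 1 from sz_pair _ _, sz_replicate_unit] at e2
      omega
    have hxl : x.length ≤ sz x := sz_le_listBool x
    have hRz := hRe z.length
    change _ ↔ talkD Cp VF pF D z pad = true
    unfold talkD
    rw [hz, unbits_bits, Option.any_some]
    simp only
    rw [unbits_bits, Option.any_some]
    simp only [List.length_replicate]
    have hCx : Cp.eval x.length ≤ Cp.eval z.length := eval_mono'' Cp (by omega)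
    have e1 : allB (Cp.eval x.length) pad = allStr (Cp.eval x.length) :=
      allB_eq (by rw [hpl]; exact Nat.pow_le_pow_right (by norm_num) (by omega))
    have e2 : allB (m x.length) pad = allStr (m x.length) :=
      allB_eq (by rw [hpl]; exact Nat.pow_le_pow_right (by norm_num) (by omega))
    have e3 : ∀ w : List Bool, w.length ≤ m x.length →
        talkE VF pF (a x.length) w pad = talk (fun v => F (bits (a x.length, v))) w := by
      intro w hw
      unfold talkE talk
      congr 2
      refine List.map_congr_left fun i _ => ?_
      refine FE_eq hF ?_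
      rw [hpl]
      refine Nat.pow_le_pow_right (by norm_num) ?_
      have h1 : (bits (a x.length, w.take i)).length ≤ 5 * z.length + 2 := by
        rw [bits_length, show sz (a x.length, w.take i) = sz (a x.length) + sz (w.take i) + 1 from
          sz_pair _ _]
        have h2 := sz_listBool_le (w.take i)
        have h3 : (w.take i).length ≤ w.length := List.length_take_le' _ _
        omega
      have h2 := eval_mono'' pF h1
      omega
    have e4 : ∀ u s : List Bool, u.length ≤ Cp.eval x.length → s.length ≤ Cp.eval x.length →
        (bits (x, u, s)).length ≤ 4 * (z.length + 2 * Cp.eval z.length) + 5 := by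
      intro u s hu hs
      have := length_triple_le x u s
      omega
    have e5 : ∀ u s : List Bool, u.length ≤ Cp.eval x.length → s.length ≤ Cp.eval x.length →
        ((inE D.V D.p (bits (x, u, s)) pad && !inE D.V' D.p' (bits (x, u, s)) pad) = true ↔
          bits (x, u, s) ∈ B ∧ bits (x, u, s) ∉ B') := by
      intro u s hu hs
      have h1 := e4 u s hu hs
      have h2 := inE_iff hD (y := bits (x, u, s)) (pad := pad) (by
        rw [hpl]
        refine Nat.pow_le_pow_right (by norm_num) ?_
        have := eval_mono'' D.p h1
        omega)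
      have h3 := inE_iff hD' (y := bits (x, u, s)) (pad := pad) (by
        rw [hpl]
        refine Nat.pow_le_pow_right (by norm_num) ?_
        have := eval_mono'' D.p' h1
        omega)
      rw [Bool.and_eq_true, h2, Bool.not_eq_true', ← h3]
      simp
    rw [hL x, e1, e2, ← hCp, List.any_eq_true]
    constructor
    · rintro ⟨u, w, hu, hw, ht, h1, h2⟩
      refine ⟨u, mem_allStr.2 hu, ?_⟩
      rw [List.any_eq_true]
      refine ⟨w, mem_allStr.2 hw, ?_⟩
      rw [e3 w hw, Bool.and_eq_true, decide_eq_true_eq, e5 u _ hu ht]
      exact ⟨ht, h1, h2⟩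
    · rintro ⟨u, hu, h⟩
      rw [mem_allStr] at hu
      rw [List.any_eq_true] at h
      obtain ⟨w, hw, h⟩ := h
      rw [mem_allStr] at hw
      rw [e3 w hw, Bool.and_eq_true, decide_eq_true_eq] at h
      obtain ⟨ht, h⟩ := h
      rw [e5 u _ hu ht] at h
      exact ⟨u, w, hu, hw, ht, h.1, h.2⟩

end Pool.Agent.T9h36.NY
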