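import Pool.Agent.T9h36.NY.Talk

set_option autoImplicit false

/-!
# `NEXP` against algorithms that talk to an advice holder
-/

namespace Pool.Agent.T9h36.NY

open Pool.Agent.NPC Pool.Agent.H660R2.NX Pool.Agent.T9h36.NX Turing Filter

theorem inNTE_empty (b : ℕ) : InNTE b (∅ : Set (List Bool)) := by
  refine ⟨fun _ => [false], 0, polyTime_of_poly' (NPC.Poly.const _), fun x => ?_⟩
  simp

theorem eventually_pow_lt (E : ℕ) : ∀ᶠ n : ℕ in atTop, 8 * (n + 1) ^ E < 2 ^ (n / 2) := by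
  have hlog := Real.log_pos (show (1 : ℝ) < 2 by norm_num)
  filter_upwards [eventually_lt (β := 0) (by norm_num) 0 (2 * (E : ℝ)) (2 * Real.log 8 +
    Real.log 2)] with n hn
  have hgoal : ((8 * (n + 1) ^ E : ℕ) : ℝ) < ((2 ^ (n / 2) : ℕ) : ℝ) := by
    push_cast
    rw [← Real.log_lt_log_iff (by positivity) (by positivity),
      Real.log_mul (by positivity) (by positivity), Real.log_pow, Real.log_pow]
    have e7 : (n : ℝ) ≤ 2 * ((n / 2 : ℕ) : ℝ) + 1 := by
      have : n ≤ 2 * (n / 2) + 1 := by omega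
      exact_mod_cast this
    nlinarith
  exact_mod_cast hgoal

/-- The number of members of a random-like language. -/
theorem RandomLike.card_ge {b c : ℕ} {L : Set (List Bool)} (h : RandomLike b c L) :
    ∀ᶠ n : ℕ in atTop, 3 * 2 ^ n ≤ 8 * {x : List Bool | x.length = n ∧ x ∈ L}.ncard := by
  classical
  obtain ⟨E, hE⟩ := h
  filter_upwards [hE 0 ∅ ∅ (inNTE_empty b) (inNTE_empty b), eventually_pow_lt E] with n h1 h2
  obtain ⟨h3, -, -, -⟩ := h1 [] (by simp)
  have hAcc : Acc 0 c ∅ ∅ n [] = ∅ := by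
    ext x
    simp [Acc]
  rw [hAcc] at h3
  have hn : n ≤ (Polynomial.X : Polynomial ℕ).eval n := by simp
  obtain ⟨hnd, hin⟩ := inputs_spec (R := Polynomial.X) hn
  have hlen := length_of_all hnd hin
  have e1 : {x : List Bool | x.length = n ∧ (x ∈ (∅ : Set (List Bool)) ↔ x ∈ L)}.ncard =
      (inputs n (padn Polynomial.X n)).countP fun x => decide (¬ x ∈ L) := by
    rw [← ncard_eq_countP hnd hin]
    congr 1
    ext x
    simp
  have e2 : {x : List Bool | x.length = n ∧ x ∈ L}.ncard =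
      (inputs n (padn Polynomial.X n)).countP fun x => decide (x ∈ L) := by
    rw [← ncard_eq_countP hnd hin]
  have e3 := List.length_eq_countP_add_countP (fun x => decide (x ∈ L))
    (l := inputs n (padn Polynomial.X n))
  have e4 : (inputs n (padn Polynomial.X n)).countP (fun x => decide (¬ x ∈ L)) =
      (inputs n (padn Polynomial.X n)).countP (fun x => !decide (x ∈ L)) := by
    refine List.countP_congr fun x _ => ?_
    simp
  have h4 : 8 * (2 ^ (n / 2) * (n + 1) ^ E) ≤ 2 ^ n := by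
    have h5 : 2 ^ (n / 2) * (8 * (n + 1) ^ E) ≤ 2 ^ (n / 2) * 2 ^ (n / 2) :=
      Nat.mul_le_mul_left _ h2.le
    have h6 : 2 ^ (n / 2) * 2 ^ (n / 2) ≤ 2 ^ n := by
      rw [← pow_add]
      exact Nat.pow_le_pow_right (by norm_num) (by omega)
    have h7 : 8 * (2 ^ (n / 2) * (n + 1) ^ E) = 2 ^ (n / 2) * (8 * (n + 1) ^ E) := by ring
    omega
  rw [e1, e4] at h3
  rw [e2]
  have e5 : (inputs n (padn Polynomial.X n)).countP (fun x => !decide (x ∈ L)) =
    (inputs n (padn Polynomial.X n)).countP (fun x => ¬ decide (x ∈ L) = true) := by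
    refine List.countP_congr fun x _ => ?_
    simp
  rw [hlen] at e3
  rw [e5] at h3
  omega

/-- **`NEXP` against algorithms that talk to an advice holder.** -/
theorem exists_not_inTalk {b c : ℕ} (hb : 1 ≤ b) (hc : 1 ≤ c) :
    ∃ L : Set (List Bool), InNEXP L ∧ ∀ m : ℕ → ℕ,
      (∀ K : ℕ, ∀ᶠ n in atTop, m n + K * Nat.log 2 n ≤ n) → ¬ InTalk b c m L := by
  classical
  have hMM : ∀ m : ℕ → ℕ, (∀ K : ℕ, ∀ᶠ n in atTop, m n + K * Nat.log 2 n ≤ n) →
      ∃ M, ∀ n, m n ≤ n + M := by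
    intro m hm
    obtain ⟨n0, hn0⟩ := eventually_atTop.1 (hm 0)
    refine ⟨(Finset.range n0).sup m, fun n => ?_⟩
    rcases lt_or_ge n n0 with h | h
    · have h1 : m n ≤ (Finset.range n0).sup m := Finset.le_sup (f := m) (Finset.mem_range.2 h)
      omega
    · have h1 := hn0 n h
      omega
  by_cases hK : InEXPPoly KSet
  swap
  · exact ⟨KSet, inNEXP_KSet, fun m hm h => hK (h.inEXPPoly (hMM m hm))⟩
  obtain ⟨L, -, hLN, hLR⟩ := dich hb hc hK
  refine ⟨L, hLN, fun m hm hmL => ?_⟩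
  obtain ⟨C, q, a, F, B, B', hB, -, hB', -, -, -, hL⟩ := hmL
  have hcard := hLR.card_ge
  obtain ⟨E, hE⟩ := hLR
  have hlogn : ∀ᶠ n : ℕ in atTop, E + 8 ≤ Nat.log 2 n := by
    filter_upwards [eventually_ge_atTop (2 ^ (E + 8))] with n hn
    exact Nat.le_log_of_pow_le (by norm_num) hn
  obtain ⟨n, h1, h2, h3, h4⟩ := ((hE C B B' hB hB').and (hcard.and ((hm (E + 1)).and
    hlogn))).exists
  -- the slice of `L` is a union
  have hsub : {x : List Bool | x.length = n ∧ x ∈ L} ⊆
      ⋃ w ∈ (allStr (m n)).toFinset.filter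
        (fun w => (talk (fun v => F (bits (a n, v))) w).length ≤ C * (n + 1) ^ c),
        Acc C c B B' n (talk (fun v => F (bits (a n, v))) w) := by
    rintro x ⟨hx, hxL⟩
    obtain ⟨u, w, hu, hw, ht, hb1, hb2⟩ := (hL x).1 hxL
    subst hx
    simp only [Set.mem_iUnion]
    refine ⟨w, ?_, rfl, u, hu, hb1, hb2⟩
    rw [Finset.mem_filter, List.mem_toFinset, mem_allStr]
    exact ⟨hw, ht⟩
  have hAccL : ∀ w ∈ (allStr (m n)).toFinset.filter
      (fun w => (talk (fun v => F (bits (a n, v))) w).length ≤ C * (n + 1) ^ c),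
      (Acc C c B B' n (talk (fun v => F (bits (a n, v))) w)).ncard ≤ (n + 1) ^ E := by
    intro w hw
    rw [Finset.mem_filter, List.mem_toFinset, mem_allStr] at hw
    refine (h1 _ hw.2).2.2.1 ?_
    rintro x ⟨hx, u, hu, hb1, hb2⟩
    subst hx
    exact (hL x).2 ⟨u, w, hu, hw.1, hw.2, hb1, hb2⟩
  have hfin : ∀ s : List Bool, (Acc C c B B' n s).Finite := by
    intro s
    refine (List.finite_length_eq Bool n).subset ?_
    intro x hx
    exact hx.1
  have hle : {x : List Bool | x.length = n ∧ x ∈ L}.ncard ≤ 2 ^ (m n + 1) * (n + 1) ^ E := by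
    refine (Set.ncard_le_ncard hsub (Set.Finite.biUnion (Finset.finite_toSet _)
      fun w _ => hfin _)).trans ?_
    refine (Finset.set_ncard_biUnion_le _ _).trans ?_
    refine (Finset.sum_le_card_nsmul _ _ _ hAccL).trans ?_
    rw [smul_eq_mul]
    refine Nat.mul_le_mul_right _ ((Finset.card_filter_le _ _).trans ?_)
    refine (List.toFinset_card_le _).trans ?_
    have := length_allStr (m n)
    omega
  -- the contradiction
  have h5 : n + 1 ≤ 2 ^ (Nat.log 2 n + 1) := Nat.lt_pow_succ_log_self (by norm_num) n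
  have h6 : (n + 1) ^ E ≤ 2 ^ ((Nat.log 2 n + 1) * E) := by
    rw [pow_mul]
    exact Nat.pow_le_pow_left h5 E
  have h7 : 2 ^ (m n + 1) * (n + 1) ^ E * 8 ≤ 2 ^ n := by
    calc 2 ^ (m n + 1) * (n + 1) ^ E * 8 ≤ 2 ^ (m n + 1) * 2 ^ ((Nat.log 2 n + 1) * E) * 2 ^ 3 :=
          Nat.mul_le_mul (Nat.mul_le_mul_left _ h6) (by norm_num)
      _ = 2 ^ (m n + 1 + (Nat.log 2 n + 1) * E + 3) := by rw [← pow_add, ← pow_add]
      _ ≤ 2 ^ n := by
        refine Nat.pow_le_pow_right (by norm_num) ?_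
        have : (E + 1) * Nat.log 2 n = E * Nat.log 2 n + Nat.log 2 n := by ring
        have e2 : (Nat.log 2 n + 1) * E = E * Nat.log 2 n + E := by ring
        omega
  have h8 := Nat.one_le_two_pow (n := n)
  omega

end Pool.Agent.T9h36.NY
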